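import Pool.Agent.W309.TD.Main

/-!
# Galois cohomology of an elliptic curve, in the form used in the statements

Classes in `H ^ 1 (K, W)` are represented by continuous 1-cocycles of `Gal(K^sep / K)` with values
in `W(K^sep)`.
-/

set_option autoImplicit false
set_option linter.all false

open WeierstrassCurve IsDedekindDomain Polynomial
open scoped Classical

namespace Pool.Agent.W309.Sha

/-- A separable closure of `F`. -/
def Sep (F : Type) [Field F] : Type := SeparableClosure F

section sep

variable (F : Type) [Field F]

noncomputable instance sepField : Field (Sep F) := inferInstanceAs (Field (SeparableClosure F))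

noncomputable instance sepAlgebra : Algebra F (Sep F) :=
  inferInstanceAs (Algebra F (SeparableClosure F))

noncomputable instance (priority := low) sepAlgebra' (K : Type) [Field K] [Algebra K F] :
    Algebra K (Sep F) := inferInstanceAs (Algebra K (SeparableClosure F))

instance sepTower (K : Type) [Field K] [Algebra K F] : IsScalarTower K F (Sep F) :=
  inferInstanceAs (IsScalarTower K F (SeparableClosure F))

end sep

/-- The absolute Galois group of `K`. -/
abbrev Gal (K : Type) [Field K] : Type := Sep K ≃ₐ[K] Sep K

section cohomology

variable {K : Type} [Field K]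

/-- The group `W(L)` of points over an extension `L` of `K`. -/
abbrev Points (W : WeierstrassCurve K) (L : Type) [Field L] [Algebra K L] : Type :=
  (W.baseChange L).toAffine.Point

/-- The map `W(L) → W(L')` given by a `K`-homomorphism `φ : L → L'`. -/
noncomputable def pointMap (W : WeierstrassCurve K) {L L' : Type} [Field L] [Algebra K L]
    [Field L'] [Algebra K L'] (φ : L →ₐ[K] L') : Points W L → Points W L' :=
  Affine.Point.map (W' := W.toAffine) φ

/-- Functions on the absolute Galois group of `K` with values in `W(K^sep)`. -/
abbrev Cochain (W : WeierstrassCurve K) : Type := Gal K → Points W (Sep K)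

/-- Continuous 1-cocycles of `Gal(K^sep / K)` with values in the discrete group `W(K^sep)`. -/
def IsContinuousCocycle (W : WeierstrassCurve K) (f : Cochain W) : Prop :=
  IsLocallyConstant f ∧ ∀ σ τ : Gal K, f (σ * τ) = f σ + pointMap W σ.toAlgHom (f τ)

/-- Coboundaries `σ ↦ σ Q - Q`. -/
def IsCoboundary (W : WeierstrassCurve K) (f : Cochain W) : Prop :=
  ∃ Q : Points W (Sep K), ∀ σ : Gal K, f σ = pointMap W σ.toAlgHom Q - Q

/-- `F` is an extension of `K` (a completion). The restriction of the cocycle `f` to
`Gal(F^sep / F)`, with values in `W(F^sep)`, is a coboundary: for an embedding `ι : K^sep → F^sep`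
over `K` there is a point `P` in `W(F^sep)` with `f(τ|K^sep) = τ P - P` for every `τ`. -/
def IsTrivialOver (W : WeierstrassCurve K) (F : Type) [Field F] [Algebra K F] (f : Cochain W) :
    Prop :=
  ∃ (ι : Sep K →ₐ[K] Sep F) (P : Points W (Sep F)), ∀ (τ : Gal F) (σ : Gal K),
    (∀ x : Sep K, τ (ι x) = ι (σ x)) →
      pointMap W ι (f σ) = pointMap W (τ.toAlgHom.restrictScalars K) P - P

/-- The class of `f` is killed by a power of two. -/
def IsTwoPowerTorsion (W : WeierstrassCurve K) (f : Cochain W) : Prop :=
  ∃ m : ℕ, IsCoboundary W (fun σ => 2 ^ m • f σ)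

/-- The class of `f` is twice the class of `f'`. -/
def IsDouble (W : WeierstrassCurve K) (f f' : Cochain W) : Prop :=
  IsCoboundary W (fun σ => 2 • f' σ - f σ)

end cohomology

section dedekind

variable (R : Type) [CommRing R] [IsDedekindDomain R]

/-- The completion of `K` at the maximal ideal `v` of `R`. -/
abbrev Completion (K : Type) [Field K] [Algebra R K] [IsFractionRing R K]
    (v : HeightOneSpectrum R) : Type := v.adicCompletion K

variable {K : Type} [Field K] [Algebra R K] [IsFractionRing R K]

/-- The class of the cocycle `f` is trivial over the completion of `K = Frac R` at every maximal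
ideal of `R`. -/
def LocallyTrivial (W : WeierstrassCurve K) (f : Cochain W) : Prop :=
  ∀ v : HeightOneSpectrum R, IsTrivialOver W (Completion R K v) f

/-- `W(K) = 2 W(K) + W(K)[2]`. -/
def PointsComplete (W : WeierstrassCurve K) : Prop :=
  ∀ P : Points W K, ∃ Q T : Points W K, T + T = 0 ∧ P = Q + Q + T

/-- Every class of 2-power order in `H ^ 1 (K, W)` which is trivial over the completion of `K` at
every maximal ideal of `R` is zero. -/
def ShaTwoTrivial (W : WeierstrassCurve K) : Prop :=
  ∀ f : Cochain W, IsContinuousCocycle W f → LocallyTrivial R W f → IsTwoPowerTorsion W f →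
    IsCoboundary W f

/-- The 2-adic Tate module of the group of classes in `H ^ 1 (K, W)` which are trivial over the
completions of `K` at all maximal ideals of `R` is zero: if the `c n` are classes of 2-power order
with this property and `2 c (n + 1) = c n` for all `n` then they are zero. -/
def ShaTateTrivial (W : WeierstrassCurve K) : Prop :=
  ∀ c : ℕ → Cochain W, (∀ n, IsContinuousCocycle W (c n)) → (∀ n, LocallyTrivial R W (c n)) →
    (∀ n, IsTwoPowerTorsion W (c n)) → (∀ n, IsDouble W (c n) (c (n + 1))) →
      ∀ n, IsCoboundary W (c n)

end dedekind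

theorem of_concl {R K : Type} [CommRing R] [IsDedekindDomain R] [Field K] [Algebra R K]
    [IsFractionRing R K] (W : WeierstrassCurve K) (h : W309.TD.Concl R K W) :
    PointsComplete W ∧ ShaTwoTrivial R W ∧ ShaTateTrivial R W := by
  have key : ShaTwoTrivial R W := by
    intro f hf hl ht
    refine h.2 f ⟨hf.1, hf.2⟩ (fun v => ?_) ht
    obtain ⟨ι, P, h⟩ := hl v
    refine ⟨ι, P, fun τ σ hτσ => ?_⟩
    exact h τ σ (fun x => congrArg (fun φ => φ x) hτσ)
  exact ⟨h.1, key, fun c h1 h2 h3 _ n => key (c n) (h1 n) (h2 n) (h3 n)⟩

end Pool.Agent.W309.Sha
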