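import Mathlib

/-!
Irreducible polynomials over finite fields and constant extensions.
-/

set_option autoImplicit false
set_option linter.all false

open Polynomial

namespace Pool.Agent.W309.TD

section

variable {k k' : Type} [Field k] [Finite k] [Field k'] [Algebra k k'] [FiniteDimensional k k']

theorem pow_card_pow_of_finrank {k M : Type} [Field k] [Finite k] [Field M] [Algebra k M]
    [FiniteDimensional k M] (n : ℕ) (h : Module.finrank k M ∣ n) (x : M) :
    x ^ (Nat.card k) ^ n = x := by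
  haveI : Finite M := Module.finite_of_finite k
  cases nonempty_fintype k
  cases nonempty_fintype M
  obtain ⟨r, rfl⟩ := h
  have hc : Fintype.card M = Nat.card k ^ Module.finrank k M := by
    rw [Nat.card_eq_fintype_card]; exact Module.card_eq_pow_finrank
  rw [pow_mul, ← hc]
  exact FiniteField.pow_card_pow r x

theorem degree_dvd {π : k[X]} (hπ : Irreducible π) {ρ : k'[X]} (hρ : Irreducible ρ)
    (hd : ρ ∣ π.map (algebraMap k k')) :
    ρ.natDegree ∣ π.natDegree ∧ π.natDegree ∣ Module.finrank k k' * ρ.natDegree := by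
  haveI : Fact (Irreducible ρ) := ⟨hρ⟩
  haveI : Fact (Irreducible π) := ⟨hπ⟩
  haveI : FiniteDimensional k' (AdjoinRoot ρ) := (AdjoinRoot.powerBasis hρ.ne_zero).finite
  haveI : FiniteDimensional k (AdjoinRoot ρ) := Module.Finite.trans k' (AdjoinRoot ρ)
  haveI : FiniteDimensional k (AdjoinRoot π) := (AdjoinRoot.powerBasis hπ.ne_zero).finite
  have fM : Module.finrank k (AdjoinRoot ρ) = Module.finrank k k' * ρ.natDegree := by
    rw [← Module.finrank_mul_finrank k k' (AdjoinRoot ρ),
      (AdjoinRoot.powerBasis hρ.ne_zero).finrank, AdjoinRoot.powerBasis_dim]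
  have fπ : Module.finrank k (AdjoinRoot π) = π.natDegree := by
    rw [(AdjoinRoot.powerBasis hπ.ne_zero).finrank, AdjoinRoot.powerBasis_dim]
  -- the root
  set α := AdjoinRoot.root ρ with hα
  have hroot : π.eval₂ (algebraMap k (AdjoinRoot ρ)) α = 0 := by
    obtain ⟨c, hc⟩ := hd
    have h1 : (π.map (algebraMap k k')).eval₂ (AdjoinRoot.of ρ) α = 0 := by
      rw [hc, eval₂_mul, AdjoinRoot.eval₂_root, zero_mul]
    rw [eval₂_map] at h1
    exact h1
  let φ : AdjoinRoot π →ₐ[k] AdjoinRoot ρ := AdjoinRoot.liftAlgHom π (Algebra.ofId _ _) α hroot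
  have hφ : φ (AdjoinRoot.root π) = α := AdjoinRoot.liftAlgHom_root _ _ _ _
  have hpow : ∀ n : ℕ, Module.finrank k k' ∣ n → π.natDegree ∣ n →
      Module.finrank k (AdjoinRoot ρ) ∣ n := by
    intro n h1 h2
    haveI : Finite (AdjoinRoot ρ) := Module.finite_of_finite k
    cases nonempty_fintype k
    cases nonempty_fintype (AdjoinRoot ρ)
    have hα' : α ^ (Nat.card k) ^ n = α := by
      rw [← hφ, ← map_pow, pow_card_pow_of_finrank (k := k) n (by rw [fπ]; exact h2)]
    have hk' : ∀ c : k', algebraMap k' (AdjoinRoot ρ) c ^ (Nat.card k) ^ n =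
        algebraMap k' (AdjoinRoot ρ) c := fun c => by
      rw [← map_pow, pow_card_pow_of_finrank (k := k) n h1]
    have hall : ∀ x : AdjoinRoot ρ, ((FiniteField.frobeniusAlgHom k (AdjoinRoot ρ)) ^ n) x = x := by
      intro x
      set Φ := (FiniteField.frobeniusAlgHom k (AdjoinRoot ρ)) ^ n with hΦ
      have hΦx : ∀ x, Φ x = x ^ (Nat.card k) ^ n := by
        intro x
        rw [hΦ, AlgHom.coe_pow, FiniteField.coe_frobeniusAlgHom, pow_iterate,
          Nat.card_eq_fintype_card]
      let Ψ : AdjoinRoot ρ →ₐ[k'] AdjoinRoot ρ :=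
        { Φ.toRingHom with
          commutes' := fun c => by
            show Φ _ = _
            rw [hΦx, hk'] }
      have hΨ : Ψ = AlgHom.id k' (AdjoinRoot ρ) := by
        apply AdjoinRoot.algHom_ext
        show Φ α = α
        rw [hΦx, hα']
      exact congrArg (fun (f : AdjoinRoot ρ →ₐ[k'] AdjoinRoot ρ) => f x) hΨ
    rw [← FiniteField.orderOf_frobeniusAlgHom k (AdjoinRoot ρ)]
    apply orderOf_dvd_of_pow_eq_one
    apply AlgHom.ext
    intro x
    exact hall x
  constructor
  · have h := hpow (Module.finrank k k' * π.natDegree) (dvd_mul_right _ _) (dvd_mul_left _ _)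
    rw [fM] at h
    exact Nat.dvd_of_mul_dvd_mul_left Module.finrank_pos h
  · rw [← fM, ← fπ]
    letI : Algebra (AdjoinRoot π) (AdjoinRoot ρ) := φ.toRingHom.toAlgebra
    haveI : IsScalarTower k (AdjoinRoot π) (AdjoinRoot ρ) :=
      IsScalarTower.of_algebraMap_eq (fun x => (φ.commutes x).symm)
    exact ⟨_, (Module.finrank_mul_finrank k (AdjoinRoot π) (AdjoinRoot ρ)).symm⟩

theorem exists_irr_factor {F : Type} [Field F] {f : F[X]} (hf : 0 < f.natDegree) :
    ∃ ρ : F[X], Irreducible ρ ∧ ρ ∣ f := by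
  have h0 : f ≠ 0 := by rintro rfl; simp at hf
  have hu : ¬ IsUnit f := by
    intro h
    rw [Polynomial.natDegree_eq_zero_of_isUnit h] at hf
    exact lt_irrefl _ hf
  exact WfDvdMonoid.exists_irreducible_factor hu h0

theorem irreducible_map {π : k[X]} (hπ : Irreducible π)
    (hc : (Module.finrank k k').Coprime π.natDegree) : Irreducible (π.map (algebraMap k k')) := by
  have hdeg : (π.map (algebraMap k k')).natDegree = π.natDegree := natDegree_map _
  obtain ⟨ρ, hρ, hdvd⟩ := exists_irr_factor (f := π.map (algebraMap k k')) (by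
    rw [hdeg]; exact hπ.natDegree_pos)
  obtain ⟨h1, h2⟩ := degree_dvd hπ hρ hdvd
  have h3 : π.natDegree ∣ ρ.natDegree := hc.symm.dvd_of_dvd_mul_left h2
  have h4 : ρ.natDegree = π.natDegree := Nat.dvd_antisymm h1 h3
  obtain ⟨c, hcc⟩ := hdvd
  have hne : π.map (algebraMap k k') ≠ 0 := by
    rw [Ne, Polynomial.map_eq_zero]; exact hπ.ne_zero
  have hc0 : c ≠ 0 := by rintro rfl; rw [mul_zero] at hcc; exact hne hcc
  have h5 : c.natDegree = 0 := by
    have := congrArg natDegree hcc
    rw [natDegree_mul hρ.ne_zero hc0, hdeg] at this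
    omega
  have hcu : IsUnit c := by
    rw [Polynomial.isUnit_iff]
    refine ⟨c.coeff 0, ?_, (eq_C_of_natDegree_eq_zero h5).symm⟩
    rw [isUnit_iff_ne_zero]
    intro h
    apply hc0
    rw [eq_C_of_natDegree_eq_zero h5, h, C_0]
  rw [hcc]
  exact (irreducible_mul_isUnit hcu).2 hρ

theorem odd_factor {f : k[X]} (hf : f ≠ 0)
    (h : ∀ π : k[X], Irreducible π → π ∣ f → Odd π.natDegree) {ρ : k'[X]}
    (hρ : Irreducible ρ) (hd : ρ ∣ f.map (algebraMap k k')) : Odd ρ.natDegree := by
  induction f using UniqueFactorizationMonoid.induction_on_prime with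
  | h₁ => exact absurd rfl hf
  | h₂ a ha =>
    exfalso
    apply hρ.not_isUnit
    exact isUnit_of_dvd_unit hd (ha.map (mapRingHom (algebraMap k k')))
  | h₃ a p ha hp ih =>
    rw [Polynomial.map_mul] at hd
    rcases hρ.prime.dvd_or_dvd hd with h1 | h1
    · have h2 := (degree_dvd hp.irreducible hρ h1).1
      obtain ⟨c, hc⟩ := h2
      have h3 := h p hp.irreducible (dvd_mul_right p a)
      rw [hc] at h3
      exact (Nat.odd_mul.1 h3).1
    · exact ih ha (fun π hπ hπa => h π hπ (hπa.mul_left p)) h1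

theorem neg_one_map (h : ¬ IsSquare (-1 : k)) (hm : Odd (Module.finrank k k')) :
    ¬ IsSquare (-1 : k') := by
  haveI : Finite k' := Module.finite_of_finite k
  cases nonempty_fintype k
  cases nonempty_fintype k'
  rw [FiniteField.isSquare_neg_one_iff, not_not] at h ⊢
  rw [Module.card_eq_pow_finrank (K := k) (V := k')]
  obtain ⟨r, hr⟩ := hm
  rw [hr, pow_succ, pow_mul, Nat.mul_mod, Nat.pow_mod, Nat.pow_mod (Fintype.card k), h]
  norm_num

end

end Pool.Agent.W309.TD
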