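import Pool.Agent.W309.TD.Main
import Pool.Agent.W309.TD.Fin

/-!
Hypotheses for affine coordinate rings of curves over finite fields.
-/

set_option autoImplicit false
set_option linter.all false

open IsDedekindDomain Polynomial

namespace Pool.Agent.W309.TD

theorem isSquare_of_odd_finrank {k M : Type} [Field k] [Field M] [Algebra k M]
    (h : Odd (Module.finrank k M)) {c : k} (hc : IsSquare (algebraMap k M c)) : IsSquare c := by
  by_contra hn
  haveI : FiniteDimensional k M := Module.finite_of_finrank_pos h.pos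
  obtain ⟨b, hb⟩ := hc
  have hirr : Irreducible (X ^ 2 - C c : k[X]) := by
    rw [Polynomial.irreducible_iff_roots_eq_zero_of_degree_le_three]
    · rw [Multiset.eq_zero_iff_forall_notMem]
      intro x hx
      have hx' := (mem_roots'.1 hx).2
      apply hn
      refine ⟨x, ?_⟩
      have : x ^ 2 - c = 0 := by simpa [IsRoot.def] using hx'
      linear_combination -this
    · rw [natDegree_X_pow_sub_C]
    · rw [natDegree_X_pow_sub_C]; norm_num
  have hmin : minpoly k b = X ^ 2 - C c := by
    symm
    apply minpoly.eq_of_irreducible_of_monic hirr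
    · simp [hb, pow_two]
    · exact monic_X_pow_sub_C c two_ne_zero
  have hdvd := minpoly.degree_dvd (K := k) (L := M) (x := b) (Algebra.IsIntegral.isIntegral _)
  rw [hmin, natDegree_X_pow_sub_C] at hdvd
  rw [← Nat.not_even_iff_odd] at h
  exact h (even_iff_two_dvd.2 hdvd)

section

variable {R : Type} [CommRing R] [IsDedekindDomain R]

theorem not_isSquare_intValuation {v : HeightOneSpectrum R} {x : R} (n : ℕ) (I : Ideal R)
    (h : Ideal.span {x} = v.asIdeal ^ (2 * n + 1) * I) (hI : ¬ I ≤ v.asIdeal) :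
    ¬ IsSquare (v.intValuation x) := by
  have hv0 : v.asIdeal ≠ 0 := v.ne_bot
  have hx : x ≠ 0 := by
    rintro rfl
    rw [Ideal.span_singleton_eq_bot.2 rfl, ← Ideal.zero_eq_bot, eq_comm, mul_eq_zero] at h
    rcases h with h | h
    · exact pow_ne_zero _ hv0 h
    · apply hI
      rw [h]
      exact bot_le
  have h1 : v.intValuation x ≤ WithZero.exp (-((2 * n + 1 : ℕ) : ℤ)) := by
    rw [v.intValuation_le_pow_iff_dvd, h]
    exact dvd_mul_right _ _
  have h2 : ¬ v.intValuation x ≤ WithZero.exp (-((2 * n + 1 + 1 : ℕ) : ℤ)) := by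
    rw [v.intValuation_le_pow_iff_dvd, h, pow_succ]
    intro hd
    have := (mul_dvd_mul_iff_left (pow_ne_zero (2 * n + 1) hv0)).1 hd
    exact hI (Ideal.le_of_dvd this)
  rw [v.intValuation_if_neg hx] at h1 h2 ⊢
  set c := (Associates.mk v.asIdeal).count (Associates.mk (Ideal.span {x} : Ideal R)).factors
  rw [WithZero.exp_le_exp] at h1 h2
  have h3 : c = 2 * n + 1 := by omega
  intro hs
  have h4 : IsSquare ((Multiplicative.ofAdd (-(c : ℤ)) : Multiplicative ℤ) :
    WithZero (Multiplicative ℤ)) := hs
  rw [isSquare_coe, toAdd_ofAdd, h3] at h4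
  obtain ⟨r, hr⟩ := h4
  omega

theorem intValuation_eq_one_of {v q : HeightOneSpectrum R} {x : R} (n : ℕ)
    (h : Ideal.span {x} = q.asIdeal ^ n) (hvq : v ≠ q) : v.intValuation x = 1 := by
  rw [HeightOneSpectrum.intValuation_eq_one_iff]
  intro hmem
  apply hvq
  have h1 : q.asIdeal ^ n ≤ v.asIdeal := by
    rw [← h, Ideal.span_singleton_le_iff_mem]; exact hmem
  have h2 : q.asIdeal ≤ v.asIdeal := v.isPrime.le_of_pow_le h1
  exact HeightOneSpectrum.ext ((q.isMaximal.eq_of_le v.isPrime.ne_top h2).symm)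

end

end Pool.Agent.W309.TD
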