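import Pool.Agent.W309.TD.Glob

/-!
The main theorem over a Dedekind domain, and its hypotheses over polynomial rings.
-/

set_option autoImplicit false
set_option linter.all false

open WeierstrassCurve WeierstrassCurve.Affine IsDedekindDomain Polynomial
open scoped Classical

namespace Pool.Agent.W309.TD

universe u

/-- A power of two kills the class. -/
def TwoPow {K Ω : Type u} [Field K] [Field Ω] [Algebra K Ω] (W : WeierstrassCurve K)
    (f : (Ω ≃ₐ[K] Ω) → Pt W Ω) : Prop := ∃ m : ℕ, IsCob W (fun σ => 2 ^ m • f σ)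

/-- The conclusion. -/
def Concl (R K : Type u) [CommRing R] [IsDedekindDomain R] [Field K] [Algebra R K]
    [IsFractionRing R K] (W : WeierstrassCurve K) : Prop :=
  (∀ P : Pt W K, ∃ Q T : Pt W K, T + T = 0 ∧ P = Q + Q + T) ∧
  ∀ f : (SeparableClosure K ≃ₐ[K] SeparableClosure K) → Pt W (SeparableClosure K),
    IsCoc W f → (∀ v : HeightOneSpectrum R, LocTriv W (v.adicCompletion K)
      (SeparableClosure (v.adicCompletion K)) f) → TwoPow W f → IsCob W f

section dedekind

variable {R K : Type u} [CommRing R] [IsDedekindDomain R] [Field K] [Algebra R K]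
  [IsFractionRing R K]

theorem concl_of_global (h2 : (2 : K) ≠ 0) {g : K} (h0 : g ≠ 0) (h1 : g ≠ 1)
    (hG : GlobalProp (leg g) g (fun v : HeightOneSpectrum R => v.adicCompletion K)) :
    Concl R K (leg g) := by
  have hLK : IsLeg ((leg g).baseChange K).toAffine g := isLeg g K h2 h0 h1
  have hL := isLeg g (SeparableClosure K) h2 h0 h1
  have hL' : ∀ v : HeightOneSpectrum R, IsLeg ((leg g).baseChange
      (SeparableClosure (v.adicCompletion K))).toAffine
      (algebraMap K (SeparableClosure (v.adicCompletion K)) g) :=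
    fun v => isLeg g _ h2 h0 h1
  refine ⟨points (Ω := SeparableClosure K) (leg g)
    (fun v : HeightOneSpectrum R => v.adicCompletion K) hLK hL hG, ?_⟩
  rintro f hf hloc ⟨m, hm⟩
  exact cocycles (leg g) (fun v : HeightOneSpectrum R => v.adicCompletion K)
    (fun v => SeparableClosure (v.adicCompletion K)) hLK hL hL' hG hf m hm hloc

theorem dedekind (h2 : (2 : K) ≠ 0) (hcl : NoTwo R) (g : R)
    (q : HeightOneSpectrum R) (hq : ¬ IsSquare (q.intValuation (g - 1)))
    (hq' : ∀ v : HeightOneSpectrum R, v ≠ q → v.intValuation (g - 1) = 1)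
    (p : HeightOneSpectrum R) (hp : ¬ IsSquare (p.intValuation g))
    (halt : (∀ v : HeightOneSpectrum R, g ∈ v.asIdeal → v = p) ∨ ¬ IsSquare (-1 : R))
    (hUq : ∀ u : Rˣ, (∃ a : R, (u : R) - a ^ 2 ∈ q.asIdeal) → ∃ b : R, (u : R) = b ^ 2)
    (hUp : ∀ v : HeightOneSpectrum R, g ∈ v.asIdeal → ∀ u : Rˣ,
      (∃ a : R, (u : R) - a ^ 2 ∈ v.asIdeal) → ∃ b : R, (u : R) = b ^ 2) :
    Concl R K (leg (algebraMap R K g)) := by
  have h0 : algebraMap R K g ≠ 0 := by
    intro h
    have hg : g = 0 := by simpa using h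
    apply hp
    rw [hg, map_zero]; exact ⟨0, (mul_zero 0).symm⟩
  have h1 : algebraMap R K g ≠ 1 := by
    intro h
    have hg : g = 1 := by
      apply IsFractionRing.injective R K
      rw [h, map_one]
    apply hq
    rw [hg, sub_self, map_zero]; exact ⟨0, (mul_zero 0).symm⟩
  exact concl_of_global h2 h0 h1 (global h2 hcl g q hq hq' p hp halt hUq hUp)

theorem noTwo_of_pid [IsPrincipalIdealRing R] : NoTwo R := fun I _ => inferInstance

theorem exp_neg_one_not_square :
    ¬ IsSquare (WithZero.exp (-1 : ℤ) : WithZero (Multiplicative ℤ)) := by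
  intro h
  have h2 : IsSquare ((Multiplicative.ofAdd (-1 : ℤ) : Multiplicative ℤ) :
    WithZero (Multiplicative ℤ)) := h
  rw [isSquare_coe, toAdd_ofAdd] at h2
  exact absurd h2 (by decide)

end dedekind

section poly

variable {k : Type u} [Field k]

/-- The height one prime generated by an irreducible polynomial. -/
noncomputable def hp (π : k[X]) (hπ : Irreducible π) : HeightOneSpectrum k[X] where
  asIdeal := Ideal.span {π}
  isPrime := (Ideal.span_singleton_prime hπ.ne_zero).2 hπ.prime
  ne_bot := by rw [Ne, Ideal.span_singleton_eq_bot]; exact hπ.ne_zero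

/-- No element of `k` which is not a square becomes a square in `k[X] / (π)`. -/
def SqStable (π : k[X]) : Prop := ∀ c : k, (∃ a : k[X], π ∣ C c - a ^ 2) → IsSquare c

theorem sqStable_of_odd {π : k[X]} (hπ : Irreducible π) (hodd : Odd π.natDegree) :
    SqStable π := by
  rintro c ⟨a, ha⟩
  by_contra hc
  haveI : Fact (Irreducible π) := ⟨hπ⟩
  have hα : (AdjoinRoot.mk π a) ^ 2 = algebraMap k (AdjoinRoot π) c := by
    rw [← map_pow]
    symm
    have : AdjoinRoot.mk π (C c) = AdjoinRoot.mk π (a ^ 2) := AdjoinRoot.mk_eq_mk.2 ha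
    exact this
  have hirr : Irreducible (X ^ 2 - C c : k[X]) := by
    rw [Polynomial.irreducible_iff_roots_eq_zero_of_degree_le_three]
    · rw [Multiset.eq_zero_iff_forall_notMem]
      intro x hx
      have hx' := (mem_roots'.1 hx).2
      apply hc
      refine ⟨x, ?_⟩
      have : x ^ 2 - c = 0 := by simpa [IsRoot.def] using hx'
      linear_combination -this
    · rw [natDegree_X_pow_sub_C]
    · rw [natDegree_X_pow_sub_C]; norm_num
  have hmin : minpoly k (AdjoinRoot.mk π a) = X ^ 2 - C c := by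
    symm
    apply minpoly.eq_of_irreducible_of_monic hirr
    · simp [hα]
    · exact monic_X_pow_sub_C c two_ne_zero
  haveI : FiniteDimensional k (AdjoinRoot π) := (AdjoinRoot.powerBasis hπ.ne_zero).finite
  have hdvd := minpoly.degree_dvd (K := k) (L := AdjoinRoot π)
    (x := AdjoinRoot.mk π a) (Algebra.IsIntegral.isIntegral _)
  rw [hmin, natDegree_X_pow_sub_C, (AdjoinRoot.powerBasis hπ.ne_zero).finrank,
    AdjoinRoot.powerBasis_dim] at hdvd
  rw [← Nat.not_even_iff_odd] at hodd
  exact hodd (even_iff_two_dvd.2 hdvd)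

theorem unit_stable {v : HeightOneSpectrum k[X]} {π : k[X]} (hv : v.asIdeal = Ideal.span {π})
    (hπ : SqStable π) (u : k[X]ˣ) (h : ∃ a : k[X], (u : k[X]) - a ^ 2 ∈ v.asIdeal) :
    ∃ b : k[X], (u : k[X]) = b ^ 2 := by
  obtain ⟨c, hc, hcu⟩ := Polynomial.isUnit_iff.1 u.isUnit
  obtain ⟨a, ha⟩ := h
  rw [hv, Ideal.mem_span_singleton, ← hcu] at ha
  obtain ⟨b, hb⟩ := hπ c ⟨a, ha⟩
  exact ⟨C b, by rw [← hcu, hb, C_mul, pow_two]⟩

theorem exists_gen (v : HeightOneSpectrum k[X]) : ∃ π : k[X], Irreducible π ∧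
    v.asIdeal = Ideal.span {π} := by
  obtain ⟨π, hπ⟩ := (inferInstance : v.asIdeal.IsPrincipal).principal
  have h : v.asIdeal = Ideal.span {π} := hπ
  refine ⟨π, ?_, h⟩
  have h1 := v.isPrime
  have h2 : π ≠ 0 := by
    rintro rfl
    exact v.ne_bot (by rw [h, Ideal.span_singleton_eq_bot])
  rw [h, Ideal.span_singleton_prime h2] at h1
  exact h1.irreducible

theorem poly_main (h2 : (2 : k) ≠ 0) (K : Type u) [Field K] [Algebra k[X] K]
    [IsFractionRing k[X] K] (g : k[X])
    (hq : Irreducible (g - 1)) (hqs : SqStable (g - 1))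
    (halt : (Irreducible g ∧ SqStable g) ∨ (¬ IsSquare (-1 : k) ∧
      (¬ ∃ (c : k) (s : k[X]), g = C c * s ^ 2) ∧ ∀ π : k[X], Irreducible π → π ∣ g →
        SqStable π)) :
    Concl k[X] K (leg (algebraMap k[X] K g)) := by
  have h2K : (2 : K) ≠ 0 := by
    have h3 : algebraMap k[X] K (C (2 : k)) ≠ 0 := by
      rw [Ne, map_eq_zero_iff _ (IsFractionRing.injective k[X] K), C_eq_zero]
      exact h2
    rwa [map_ofNat, map_ofNat] at h3
  set q := hp (g - 1) hq with hqdef
  have hqv : q.intValuation (g - 1) = WithZero.exp (-1 : ℤ) :=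
    q.intValuation_singleton hq.ne_zero rfl
  have hq' : ∀ v : HeightOneSpectrum k[X], v ≠ q → v.intValuation (g - 1) = 1 := by
    intro v hv
    rw [HeightOneSpectrum.intValuation_eq_one_iff]
    intro hmem
    apply hv
    apply HeightOneSpectrum.ext
    have hle : q.asIdeal ≤ v.asIdeal := by
      rw [hqdef]
      show Ideal.span {g - 1} ≤ v.asIdeal
      rw [Ideal.span_singleton_le_iff_mem]; exact hmem
    exact ((q.isMaximal.eq_of_le v.isPrime.ne_top hle).symm)
  have hUq : ∀ u : k[X]ˣ, (∃ a : k[X], (u : k[X]) - a ^ 2 ∈ q.asIdeal) →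
      ∃ b : k[X], (u : k[X]) = b ^ 2 := fun u hu => unit_stable (v := q) rfl hqs u hu
  have hqn : ¬ IsSquare (q.intValuation (g - 1)) := by
    rw [hqv]; exact exp_neg_one_not_square
  rcases halt with ⟨hg, hgs⟩ | ⟨hm1, hns, hall⟩
  · set p := hp g hg with hpdef
    have hpv : p.intValuation g = WithZero.exp (-1 : ℤ) :=
      p.intValuation_singleton hg.ne_zero rfl
    have hun : ∀ v : HeightOneSpectrum k[X], g ∈ v.asIdeal → v = p := by
      intro v hmem
      apply HeightOneSpectrum.ext
      have hle : p.asIdeal ≤ v.asIdeal := by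
        rw [hpdef]
        show Ideal.span {g} ≤ v.asIdeal
        rw [Ideal.span_singleton_le_iff_mem]; exact hmem
      exact ((p.isMaximal.eq_of_le v.isPrime.ne_top hle).symm)
    refine dedekind h2K noTwo_of_pid g q hqn hq' p (by rw [hpv]; exact exp_neg_one_not_square)
      (Or.inl hun) hUq ?_
    intro v hv u hu
    rw [hun v hv] at hu
    exact unit_stable (v := p) rfl hgs u hu
  · have hg0 : g ≠ 0 := by
      rintro rfl
      exact hns ⟨0, 0, by simp⟩
    obtain ⟨p, hpn⟩ : ∃ p : HeightOneSpectrum k[X], ¬ IsSquare (p.intValuation g) := by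
      by_contra hcon
      push Not at hcon
      obtain ⟨J, hJ⟩ := exists_sqrt_ideal hg0 hcon
      obtain ⟨c, hc⟩ := (inferInstance : J.IsPrincipal).principal
      have hJc : J = Ideal.span {c} := hc
      rw [hJc, Ideal.span_singleton_pow, Ideal.span_singleton_eq_span_singleton] at hJ
      obtain ⟨w, hw⟩ := hJ
      obtain ⟨e, he, hew⟩ := Polynomial.isUnit_iff.1 w.isUnit
      exact hns ⟨e, c, by rw [← hw, ← hew]; ring⟩
    refine dedekind h2K noTwo_of_pid g q hqn hq' p hpn (Or.inr ?_) hUq ?_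
    · rintro ⟨b, hb⟩
      have hdeg : b.natDegree = 0 := by
        have := congrArg natDegree hb
        rw [natDegree_neg, natDegree_one, ← pow_two, natDegree_pow] at this
        omega
      obtain ⟨c, rfl⟩ := natDegree_eq_zero.1 hdeg
      apply hm1
      refine ⟨c, ?_⟩
      have h3 : C (-1 : k) = C (c * c) := by
        rw [C_neg, C_1, C_mul]; exact hb
      exact C_injective h3
    · intro v hv u hu
      obtain ⟨π, hπ, hvπ⟩ := exists_gen v
      have hd : π ∣ g := by
        rw [← Ideal.mem_span_singleton, ← hvπ]; exact hv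
      exact unit_stable hvπ (hall π hπ hd) u hu

end poly

end Pool.Agent.W309.TD
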