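import Pool.Agent.W309.TD.Kum

/-!
Two-descent: locally trivial cocycles and the points over the base field.
-/

set_option autoImplicit false
set_option linter.all false

open WeierstrassCurve WeierstrassCurve.Affine
open scoped Classical

namespace Pool.Agent.W309.TD

universe u

section loc

variable {K Ω F Ω' : Type u} [Field K] [Field Ω] [Algebra K Ω] [IsGalois K Ω] [Field F]
  [Field Ω'] [Algebra K F] [Algebra F Ω'] [Algebra K Ω'] [IsScalarTower K F Ω'] [IsGalois F Ω']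
  (W : WeierstrassCurve K) {g : K}

/-- The restriction of the cocycle `f` to the Galois group of `Ω' / F` is a coboundary in the
points over `Ω'`. -/
def LocTriv (W : WeierstrassCurve K) (F Ω' : Type u) [Field F]
    [Field Ω'] [Algebra K F] [Algebra F Ω'] [Algebra K Ω'] [IsScalarTower K F Ω']
    (f : (Ω ≃ₐ[K] Ω) → Pt W Ω) : Prop :=
  ∃ (ι : Ω →ₐ[K] Ω') (P : Pt W Ω'), ∀ (τ : Ω' ≃ₐ[F] Ω') (σ : Ω ≃ₐ[K] Ω),
    (rs K τ).comp ι = ι.comp (au σ) → act W ι (f σ) = act W (rs K τ) P - P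

/-- Local solubility of the pair `(a0, a1)`. -/
def LocSol (W : WeierstrassCurve K) (g : K) (F : Type u) [Field F] [Algebra K F] (a0 a1 : K) :
    Prop :=
  ∃ (Q : Pt W F) (c0 c1 : F), c0 ≠ 0 ∧ c1 ≠ 0 ∧
    algebraMap K F a0 = c0 ^ 2 * d0 (algebraMap K F g) Q ∧
    algebraMap K F a1 = c1 ^ 2 * d1 (algebraMap K F g) Q

theorem exists_restrict (ι : Ω →ₐ[K] Ω') (τ : Ω' ≃ₐ[F] Ω') :
    ∃ σ : Ω ≃ₐ[K] Ω, (rs K τ).comp ι = ι.comp (au σ) := by
  letI : Algebra Ω Ω' := ι.toRingHom.toAlgebra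
  haveI : IsScalarTower K Ω Ω' := IsScalarTower.of_algebraMap_eq fun x => (ι.commutes x).symm
  refine ⟨(τ.restrictScalars K).restrictNormal Ω, AlgHom.ext fun x => ?_⟩
  exact ((τ.restrictScalars K).restrictNormal_commutes Ω x).symm

variable (hL' : IsLeg (W.baseChange Ω').toAffine (algebraMap K Ω' g))

include hL'

theorem loc_rep {f : (Ω ≃ₐ[K] Ω) → Pt W Ω}
    (hf2 : ∀ σ, f σ + f σ = 0) (hloc : LocTriv W F Ω' f) {t0 t1 : Ω} {a0 a1 : K}
    (n0 : t0 ≠ 0) (n1 : t1 ≠ 0)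
    (e0 : t0 ^ 2 = algebraMap K Ω a0) (e1 : t1 ^ 2 = algebraMap K Ω a1)
    (k0 : ∀ σ, σ t0 = s0 (f σ) * t0) (k1 : ∀ σ, σ t1 = s1 (f σ) * t1) :
    LocSol W g F a0 a1 := by
  obtain ⟨ι, P, hP⟩ := hloc
  choose res hres using exists_restrict (K := K) (Ω := Ω) (F := F) (Ω' := Ω') ι
  have hT : ∀ τ : Ω' ≃ₐ[F] Ω', act W ι (f (res τ)) = act W (rs K τ) P - P :=
    fun τ => hP τ (res τ) (hres τ)
  have hTT : ∀ τ : Ω' ≃ₐ[F] Ω', act W ι (f (res τ)) + act W ι (f (res τ)) = 0 :=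
    fun τ => (two_act W ι _).2 (hf2 _)
  have hTP : ∀ τ : Ω' ≃ₐ[F] Ω', act W (rs K τ) P = P + act W ι (f (res τ)) := by
    intro τ; rw [hT]; abel
  have hPP : ∀ τ : Ω' ≃ₐ[F] Ω', act W (rs K τ) (P + P) = P + P := by
    intro τ
    rw [map_add, hTP, add_add_add_comm, hTT, add_zero]
  obtain ⟨Q, hQ⟩ := fixed_point (K := K) (F := F) W (P + P) hPP
  have gγ : incl K F Ω' (algebraMap K F g) = algebraMap K Ω' g :=
    (IsScalarTower.algebraMap_apply K F Ω' g).symm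
  have gτ : ∀ τ : Ω' ≃ₐ[F] Ω', rs K τ (algebraMap K Ω' g) = algebraMap K Ω' g := fun τ =>
    (rs K τ).commutes g
  have hPT : ∀ τ : Ω' ≃ₐ[F] Ω', P + P = 0 → act W ι (f (res τ)) = 0 := by
    intro τ h
    rw [hT, act_tor W hL' _ h, sub_self]
  have inj := (algebraMap F Ω').injective
  -- first coordinate
  have m0 : ∀ τ : Ω' ≃ₐ[F] Ω', τ (h0 (algebraMap K Ω' g) P) =
      s0 (act W ι (f (res τ))) * h0 (algebraMap K Ω' g) P := by
    intro τ
    have := h0_act W (rs K τ) (algebraMap K Ω' g) P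
    rw [gτ, hTP, (h_translate hL' (hTT τ) (hPT τ)).1, rs_apply] at this
    exact this.symm
  have m1 : ∀ τ : Ω' ≃ₐ[F] Ω', τ (h1 (algebraMap K Ω' g) P) =
      s1 (act W ι (f (res τ))) * h1 (algebraMap K Ω' g) P := by
    intro τ
    have := h1_act W (rs K τ) (algebraMap K Ω' g) P
    rw [gτ, hTP, (h_translate hL' (hTT τ) (hPT τ)).2, rs_apply] at this
    exact this.symm
  have l0 : ∀ τ : Ω' ≃ₐ[F] Ω', τ (ι t0) = s0 (act W ι (f (res τ))) * ι t0 := by
    intro τ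
    have := congrArg (fun φ : Ω →ₐ[K] Ω' => φ t0) (hres τ)
    have h2 : τ (ι t0) = ι ((res τ) t0) := this
    rw [h2, k0, map_mul, s0_act]
  have l1 : ∀ τ : Ω' ≃ₐ[F] Ω', τ (ι t1) = s1 (act W ι (f (res τ))) * ι t1 := by
    intro τ
    have := congrArg (fun φ : Ω →ₐ[K] Ω' => φ t1) (hres τ)
    have h2 : τ (ι t1) = ι ((res τ) t1) := this
    rw [h2, k1, map_mul, s1_act]
  have ιn0 : ι t0 ≠ 0 := (map_ne_zero ι).2 n0
  have ιn1 : ι t1 ≠ 0 := (map_ne_zero ι).2 n1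
  obtain ⟨c0, hc0, q0⟩ := compare (K := F) ιn0 (h0_ne hL' P) _ (fun τ => s0_ne _) l0 m0
  obtain ⟨c1, hc1, q1⟩ := compare (K := F) ιn1 (h1_ne hL' P) _ (fun τ => s1_ne _) l1 m1
  refine ⟨Q, c0, c1, hc0, hc1, ?_, ?_⟩
  · apply inj
    have w1 : (ι t0) ^ 2 = algebraMap K Ω' a0 := by rw [← map_pow, e0, ι.commutes]
    rw [← IsScalarTower.algebraMap_apply K F Ω', ← w1, q0, mul_pow, h0_sq hL', ← hQ, ← gγ,
      d0_act, map_mul, map_pow]
    rfl
  · apply inj
    have w1 : (ι t1) ^ 2 = algebraMap K Ω' a1 := by rw [← map_pow, e1, ι.commutes]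
    rw [← IsScalarTower.algebraMap_apply K F Ω', ← w1, q1, mul_pow, h1_sq hL', ← hQ, ← gγ,
      d1_act, map_mul, map_pow]
    rfl

end loc

theorem ab1 {A : Type*} [AddCommGroup A] (a b r : A) :
    (a - (b - r)) + (a - (b - r)) = (a + a) - ((b + b) - (r + r)) := by abel

section main

variable {K Ω : Type u} [Field K] [Field Ω] [Algebra K Ω] [IsGalois K Ω] [IsSepClosed Ω]
  (W : WeierstrassCurve K) {g : K} {V : Type u} (F Ω' : V → Type u) [∀ v, Field (F v)]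
  [∀ v, Field (Ω' v)] [∀ v, Algebra K (F v)] [∀ v, Algebra (F v) (Ω' v)]
  [∀ v, Algebra K (Ω' v)] [∀ v, IsScalarTower K (F v) (Ω' v)] [∀ v, IsGalois (F v) (Ω' v)]

/-- Everywhere locally soluble pairs come from the points of order two. -/
def GlobalProp (W : WeierstrassCurve K) (g : K) {V : Type u} (F : V → Type u)
    [∀ v, Field (F v)] [∀ v, Algebra K (F v)] : Prop :=
  ∀ a0 a1 : K, a0 ≠ 0 → a1 ≠ 0 → (∀ v, LocSol W g (F v) a0 a1) →
    ∃ (T : Pt W K) (c0 c1 : K), T + T = 0 ∧ c0 ≠ 0 ∧ c1 ≠ 0 ∧ a0 = c0 ^ 2 * d0 g T ∧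
      a1 = c1 ^ 2 * d1 g T

variable (hLK : IsLeg (W.baseChange K).toAffine g)
  (hL : IsLeg (W.baseChange Ω).toAffine (algebraMap K Ω g))
  (hL' : ∀ v, IsLeg (W.baseChange (Ω' v)).toAffine (algebraMap K (Ω' v) g))
  (hG : GlobalProp W g F)

omit [∀ v, IsScalarTower K (F v) (Ω' v)] in
theorem incl_self (x : K) : incl K K Ω x = algebraMap K Ω x := rfl

include hLK hL hG in
/-- The points over `K`. -/
theorem points (P : Pt W K) : ∃ Q T : Pt W K, T + T = 0 ∧ P = Q + Q + T := by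
  have hd0 : d0 g P ≠ 0 := d0_ne hLK P
  have hd1 : d1 g P ≠ 0 := d1_ne hLK P
  obtain ⟨T, c0, c1, hT, n0, n1, e0, e1⟩ := hG _ _ hd0 hd1 (fun v => by
    refine ⟨act W (Algebra.ofId K (F v)) P, 1, 1, one_ne_zero, one_ne_zero, ?_, ?_⟩
    · rw [one_pow, one_mul]
      exact (d0_act W (Algebra.ofId K (F v)) g P).symm
    · rw [one_pow, one_mul]
      exact (d1_act W (Algebra.ofId K (F v)) g P).symm)
  obtain ⟨H, hH⟩ := halve_sep hL (act W (incl K K Ω) P)
  obtain ⟨H', hH'⟩ := halve_sep hL (act W (incl K K Ω) T)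
  have fixP : ∀ (σ : Ω ≃ₐ[K] Ω) (R : Pt W K), act W (au σ) (act W (incl K K Ω) R) =
      act W (incl K K Ω) R := fun σ R => rs_act_incl (K := K) (F := K) W σ R
  have k : ∀ σ : Ω ≃ₐ[K] Ω, (act W (au σ) H - H) + (act W (au σ) H - H) = 0 := by
    intro σ
    rw [sub_add_sub_comm, ← map_add, hH, fixP, sub_self]
  have hPT : ∀ σ : Ω ≃ₐ[K] Ω, H + H = 0 → act W (au σ) H - H = 0 := by
    intro σ h
    rw [act_tor W hL _ h, sub_self]
  have gσ : ∀ σ : Ω ≃ₐ[K] Ω, au σ (algebraMap K Ω g) = algebraMap K Ω g := fun σ => σ.commutes g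
  have key := cob_of_rep W hL (f := fun σ => act W (au σ) H - H) k (h0_ne hL H) (h1_ne hL H)
    (fun σ => by
      have := h0_act W (au σ) (algebraMap K Ω g) H
      rw [gσ] at this
      have h2 : act W (au σ) H = H + (act W (au σ) H - H) := by abel
      rw [h2, (h_translate hL (k σ) (hPT σ)).1] at this
      exact this.symm)
    (fun σ => by
      have := h1_act W (au σ) (algebraMap K Ω g) H
      rw [gσ] at this
      have h2 : act W (au σ) H = H + (act W (au σ) H - H) := by abel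
      rw [h2, (h_translate hL (k σ) (hPT σ)).2] at this
      exact this.symm)
    (H := H') (fun σ => by rw [hH']; exact fixP σ T) (c0 := c0) (c1 := c1)
    (by
      rw [h0_sq hL, hH, hH', ← incl_self, d0_act, d0_act, e0, ← incl_self, map_mul, map_pow])
    (by
      rw [h1_sq hL, hH, hH', ← incl_self, d1_act, d1_act, e1, ← incl_self, map_mul, map_pow])
  obtain ⟨R, hR⟩ := fixed_point (K := K) (F := K) (Ω := Ω) W (H - H') (fun σ => by
    have h1 := key σ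
    show act W (au σ) (H - H') = H - H'
    rw [map_sub]
    have h2 : act W (au σ) H = (act W (au σ) H' - H') + H := by rw [← h1]; abel
    rw [h2]; abel)
  refine ⟨R, T, hT, ?_⟩
  apply act_inj W (incl K K Ω)
  rw [map_add, map_add, hR, ← hH, ← hH']
  abel

include hLK hL hL' hG in
/-- Cocycles whose double is a coboundary. -/
theorem cocycles_two {f : (Ω ≃ₐ[K] Ω) → Pt W Ω} (hf : IsCoc W f)
    (h2 : IsCob W (fun σ => f σ + f σ)) (hloc : ∀ v, LocTriv W (F v) (Ω' v) f) : IsCob W f := by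
  obtain ⟨Q, hQ⟩ := h2
  obtain ⟨R, hR⟩ := halve_sep hL Q
  set f' : (Ω ≃ₐ[K] Ω) → Pt W Ω := fun σ => f σ - (act W (au σ) R - R) with hf'
  have hf'c : IsCoc W f' := hf.sub W (cob_isCoc W R)
  have hf'2 : ∀ σ, f' σ + f' σ = 0 := by
    intro σ
    have h3 := hQ σ
    simp only at h3
    have : f' σ + f' σ = (f σ + f σ) - (act W (au σ) (R + R) - (R + R)) := by
      rw [map_add]
      exact ab1 _ _ _
    rw [this, hR, h3, sub_self]
  have hf'loc : ∀ v, LocTriv W (F v) (Ω' v) f' := by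
    intro v
    obtain ⟨ι, P, hP⟩ := hloc v
    refine ⟨ι, P - act W ι R, fun τ σ hc => ?_⟩
    have h3 := hP τ σ hc
    have h4 : act W ι (act W (au σ) R) = act W (rs K τ) (act W ι R) := by
      rw [act_act, act_act, ← hc]
    rw [hf', map_sub, map_sub, h3, map_sub, h4]
    abel
  obtain ⟨t0, t1, a0, a1, n0, n1, e0, e1, k0, k1⟩ := kummer_rep W hL hf'c hf'2
  have ha0 : a0 ≠ 0 := by
    rintro rfl
    rw [map_zero] at e0
    exact pow_ne_zero 2 n0 e0
  have ha1 : a1 ≠ 0 := by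
    rintro rfl
    rw [map_zero] at e1
    exact pow_ne_zero 2 n1 e1
  obtain ⟨T, c0, c1, hT, m0, m1, w0, w1⟩ := hG a0 a1 ha0 ha1 (fun v =>
    loc_rep (F := F v) (Ω' := Ω' v) W (hL' v) hf'2 (hf'loc v) n0 n1 e0 e1 k0 k1)
  obtain ⟨H, hH⟩ := halve_sep hL (act W (incl K K Ω) T)
  have key := cob_of_rep W hL hf'2 n0 n1 k0 k1 (H := H) (c0 := c0) (c1 := c1)
    (fun σ => by rw [hH]; exact rs_act_incl (K := K) (F := K) W σ T)
    (by rw [e0, hH, w0, ← incl_self g, d0_act, ← incl_self, ← incl_self, map_mul, map_pow])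
    (by rw [e1, hH, w1, ← incl_self g, d1_act, ← incl_self, ← incl_self, map_mul, map_pow])
  refine ⟨H + R, fun σ => ?_⟩
  have h5 := key σ
  have h6 : f σ = f' σ + (act W (au σ) R - R) := (sub_add_cancel _ _).symm
  rw [h6, h5, map_add]
  abel

include hLK hL hL' hG in
/-- Cocycles of 2-power order modulo coboundaries. -/
theorem cocycles {f : (Ω ≃ₐ[K] Ω) → Pt W Ω} (hf : IsCoc W f) (m : ℕ)
    (h2 : IsCob W (fun σ => 2 ^ m • f σ)) (hloc : ∀ v, LocTriv W (F v) (Ω' v) f) : IsCob W f := by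
  induction m with
  | zero =>
    simpa using h2
  | succ m ih =>
    apply ih
    apply cocycles_two W F Ω' hLK hL hL' hG (hf.nsmul W (2 ^ m))
    · obtain ⟨Q, hQ⟩ := h2
      refine ⟨Q, fun σ => ?_⟩
      have := hQ σ
      simp only at this ⊢
      rw [← this, ← two_nsmul, smul_smul, pow_succ']
    · intro v
      obtain ⟨ι, P, hP⟩ := hloc v
      refine ⟨ι, 2 ^ m • P, fun τ σ hc => ?_⟩
      rw [map_nsmul, hP τ σ hc, map_nsmul, nsmul_sub]

end main

end Pool.Agent.W309.TD
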