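import Pool.Agent.W309.TD.Locv
import Pool.Agent.W309.TD.Des

/-!
The global step over a Dedekind domain.
-/

set_option autoImplicit false
set_option linter.all false

open WeierstrassCurve WeierstrassCurve.Affine IsDedekindDomain
open scoped Classical

namespace Pool.Agent.W309.TD

universe u

section parity

theorem isSquare_coe {m : Multiplicative ℤ} :
    IsSquare ((m : Multiplicative ℤ) : WithZero (Multiplicative ℤ)) ↔
      Even (Multiplicative.toAdd m) := by
  constructor
  · rintro ⟨r, hr⟩
    have hr0 : r ≠ 0 := by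
      rintro rfl
      rw [mul_zero] at hr
      exact WithZero.coe_ne_zero hr
    obtain ⟨s, rfl⟩ := WithZero.ne_zero_iff_exists.1 hr0
    rw [← WithZero.coe_mul, WithZero.coe_inj] at hr
    exact ⟨Multiplicative.toAdd s, by rw [hr]; rfl⟩
  · rintro ⟨k, hk⟩
    refine ⟨((Multiplicative.ofAdd k : Multiplicative ℤ) : WithZero (Multiplicative ℤ)), ?_⟩
    rw [← WithZero.coe_mul, WithZero.coe_inj]
    exact hk

theorem sq_of_nonsq {a b : WithZero (Multiplicative ℤ)} (ha : ¬ IsSquare a) (hb : ¬ IsSquare b) :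
    IsSquare (a * b) := by
  have ha0 : a ≠ 0 := by rintro rfl; exact ha ⟨0, (mul_zero 0).symm⟩
  have hb0 : b ≠ 0 := by rintro rfl; exact hb ⟨0, (mul_zero 0).symm⟩
  obtain ⟨m, rfl⟩ := WithZero.ne_zero_iff_exists.1 ha0
  obtain ⟨n, rfl⟩ := WithZero.ne_zero_iff_exists.1 hb0
  rw [← WithZero.coe_mul]
  rw [isSquare_coe] at ha hb ⊢
  rw [Int.not_even_iff_odd] at ha hb
  exact ha.add_odd hb

theorem IsSquare.of_mul_left' {a b : WithZero (Multiplicative ℤ)} (ha : IsSquare a) (ha0 : a ≠ 0)
    (h : IsSquare (a * b)) : IsSquare b := by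
  obtain ⟨r, rfl⟩ := ha
  obtain ⟨s, hs⟩ := h
  have hr : r ≠ 0 := fun h => ha0 (by rw [h, mul_zero])
  refine ⟨s / r, ?_⟩
  rw [div_mul_div_comm, ← hs, mul_div_cancel_left₀ _ ha0]

end parity

variable {R K : Type u} [CommRing R] [IsDedekindDomain R] [Field K] [Algebra R K]
  [IsFractionRing R K]

/-- no class of order two. -/
def NoTwo (R : Type u) [CommRing R] : Prop :=
  ∀ I : Ideal R, (I ^ 2).IsPrincipal → I.IsPrincipal

theorem exists_sqrt_ideal {b : R} (hb : b ≠ 0)
    (h : ∀ v : HeightOneSpectrum R, IsSquare (v.intValuation b)) :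
    ∃ J : Ideal R, J ^ 2 = Ideal.span {b} := by
  set I : Ideal R := Ideal.span {b} with hI
  have hI0 : I ≠ 0 := by
    rw [hI, Ne, Ideal.zero_eq_bot, Ideal.span_singleton_eq_bot]; exact hb
  have hcount : ∀ v : HeightOneSpectrum R,
      Even ((Associates.mk v.asIdeal).count (Associates.mk I).factors) := by
    intro v
    have h1 := h v
    rw [v.intValuation_if_neg hb] at h1
    have h2 : IsSquare (((Multiplicative.ofAdd (-((Associates.mk v.asIdeal).count
        (Associates.mk I).factors : ℤ)) : Multiplicative ℤ)) : WithZero (Multiplicative ℤ)) := h1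
    rw [isSquare_coe, toAdd_ofAdd, even_neg] at h2
    exact_mod_cast h2
  refine ⟨∏ᶠ v : HeightOneSpectrum R, v.asIdeal ^
    ((Associates.mk v.asIdeal).count (Associates.mk I).factors / 2), ?_⟩
  rw [finprod_pow]
  · conv_rhs => rw [← Ideal.finprod_heightOneSpectrum_factorization hI0]
    apply finprod_congr
    intro v
    rw [← pow_mul, HeightOneSpectrum.maxPowDividing]
    congr 1
    exact Nat.div_mul_cancel (hcount v).two_dvd
  · have hfin := Ideal.hasFiniteMulSupport hI0
    refine Set.Finite.subset hfin fun v hv => ?_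
    rw [Function.mem_mulSupport] at hv ⊢
    intro h0
    apply hv
    have hc : (Associates.mk v.asIdeal).count (Associates.mk I).factors = 0 := by
      by_contra hne
      rw [HeightOneSpectrum.maxPowDividing, Ideal.one_eq_top, Ideal.pow_eq_top_iff] at h0
      exact (h0.resolve_right hne |> v.isPrime.ne_top)
    rw [hc]
    simp

theorem even_rep (hcl : NoTwo R) {a : K} (ha : a ≠ 0)
    (h : ∀ v : HeightOneSpectrum R, IsSquare (v.valuation K a)) :
    ∃ (w : Rˣ) (s : K), s ≠ 0 ∧ a = algebraMap R K w * s ^ 2 := by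
  obtain ⟨n, d, hd, rfl⟩ := IsFractionRing.div_surjective (A := R) a
  have hd0 : d ≠ 0 := nonZeroDivisors.ne_zero hd
  have hdK : algebraMap R K d ≠ 0 := by
    simpa using hd0
  have hn0 : n ≠ 0 := by
    rintro rfl
    simp at ha
  have hb : n * d ≠ 0 := mul_ne_zero hn0 hd0
  have hev : ∀ v : HeightOneSpectrum R, IsSquare (v.intValuation (n * d)) := by
    intro v
    have h1 := h v
    have e : algebraMap R K (n * d) = algebraMap R K n / algebraMap R K d * (algebraMap R K d) ^ 2
        := by
      rw [map_mul]; field_simp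
    have e2 := v.valuation_of_algebraMap (K := K) (n * d)
    rw [← e2]
    show IsSquare (v.valuation K (algebraMap R K (n * d)))
    rw [e, map_mul, map_pow, pow_two]
    exact h1.mul ⟨_, rfl⟩
  obtain ⟨J, hJ⟩ := exists_sqrt_ideal hb hev
  have hJp := hcl J (by rw [hJ]; exact ⟨⟨_, rfl⟩⟩)
  obtain ⟨c, hc⟩ := hJp.principal
  have hJc : J = Ideal.span {c} := hc
  rw [hJc, Ideal.span_singleton_pow, Ideal.span_singleton_eq_span_singleton] at hJ
  obtain ⟨w, hw⟩ := hJ
  have hc0 : c ≠ 0 := by
    rintro rfl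
    apply hb
    rw [← hw]; ring
  have hcK : algebraMap R K c ≠ 0 := by simpa using hc0
  refine ⟨w, algebraMap R K c / algebraMap R K d, div_ne_zero hcK hdK, ?_⟩
  have e := congrArg (algebraMap R K) hw
  rw [map_mul, map_mul, map_pow] at e
  field_simp
  rw [← e]
  ring

theorem sq_transfer (v : HeightOneSpectrum R) {a : K}
    (h : Sq (Valued.v (R := v.adicCompletion K) (Γ₀ := WithZero (Multiplicative ℤ)))
      (algebraMap K (v.adicCompletion K) a)) : Sq (v.valuation K) a := by
  have hv : ∀ x : K, Valued.v (R := v.adicCompletion K) (Γ₀ := WithZero (Multiplicative ℤ))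
      (algebraMap K (v.adicCompletion K) x) = v.valuation K x :=
    fun x => HeightOneSpectrum.adicCompletion.valued_coe K v x
  obtain ⟨c, hc⟩ := h
  set w := (Valued.v (R := v.adicCompletion K) (Γ₀ := WithZero (Multiplicative ℤ))) with hw
  set A := algebraMap K (v.adicCompletion K) a with hA
  have hopen : IsOpen {z : v.adicCompletion K | w (A - z ^ 2) < w A} := by
    have h1 := Valued.isOpen_ball (v.adicCompletion K) (w.restrict A)
    have h2 : Continuous (fun z : v.adicCompletion K => A - z ^ 2) := by fun_prop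
    have h3 := h1.preimage h2
    convert h3 using 1
    ext z
    exact (w.restrict_lt_iff).symm
  obtain ⟨k, hk⟩ := (HeightOneSpectrum.denseRange_algebraMap K v).exists_mem_open hopen ⟨c, hc⟩
  refine ⟨k, ?_⟩
  have hk' : w (A - algebraMap K (v.adicCompletion K) k ^ 2) < w A := hk
  rw [hA, ← map_pow, ← map_sub, hw, hv, hv] at hk'
  exact hk'

theorem sq_unit (v : HeightOneSpectrum R) {r : R}
    (h : Sq (v.valuation K) (algebraMap R K r)) (hr : r ∉ v.asIdeal) :
    ∃ a : R, r - a ^ 2 ∈ v.asIdeal := by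
  have h1 : v.valuation K (algebraMap R K r) = 1 := by
    have h2 : v.valuation K (algebraMap R K r) ≤ 1 := v.valuation_le_one r
    rcases h2.eq_or_lt with h3 | h3
    · exact h3
    · exact absurd ((v.valuation_lt_one_iff_mem r).1 h3) hr
  obtain ⟨c, hc, hc'⟩ := h.val
  rw [h1] at hc hc'
  have hc1 : v.valuation K c ≤ 1 := by
    by_contra hlt
    rw [not_le] at hlt
    have : (1 : WithZero (Multiplicative ℤ)) < v.valuation K c * v.valuation K c :=
      one_lt_mul'' hlt hlt
    rw [hc'] at this
    exact lt_irrefl _ this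
  obtain ⟨a, ha⟩ := v.exists_valuation_sub_lt_of_integer hc1 1
  rw [Units.val_one] at ha
  refine ⟨a, ?_⟩
  rw [← v.valuation_lt_one_iff_mem (K := K)]
  show v.valuation K (algebraMap R K (r - a ^ 2)) < 1
  have e : algebraMap R K (r - a ^ 2) = (algebraMap R K r - c ^ 2) -
      (algebraMap R K a - c) * (algebraMap R K a + c) := by
    rw [map_sub, map_pow]; ring
  rw [e]
  have h4 : v.valuation K (algebraMap R K a + c) ≤ 1 :=
    (Valuation.map_add _ _ _).trans (max_le (v.valuation_le_one a) hc1)
  refine lt_of_le_of_lt (Valuation.map_sub _ _ _) (max_lt hc ?_)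
  rw [map_mul]
  calc _ ≤ v.valuation K (algebraMap R K a - c) * 1 := mul_le_mul_right h4 _
    _ < 1 := by rw [mul_one]; exact ha

end Pool.Agent.W309.TD
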