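import Pool.Agent.W309.TD.Main

/-!
Explicit families.
-/

set_option autoImplicit false
set_option linter.all false

open WeierstrassCurve WeierstrassCurve.Affine IsDedekindDomain Polynomial
open scoped Classical

namespace Pool.Agent.W309.TD

universe u

theorem schur {S : Finset ℤ} (hS : S.card ≠ 0) :
    Irreducible ((∏ a ∈ S, (X - C a)) - 1 : ℤ[X]) := by
  set P : ℤ[X] := ∏ a ∈ S, (X - C a) with hP
  have hPm : P.Monic := monic_prod_of_monic _ _ fun a _ => monic_X_sub_C a
  have hPd : P.natDegree = S.card := by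
    rw [hP, natDegree_prod_of_monic _ _ fun a _ => monic_X_sub_C a]
    simp only [natDegree_X_sub_C, Finset.sum_const, smul_eq_mul, mul_one]
  have hd1 : (1 : ℤ[X]).degree < P.degree := by
    rw [degree_one, degree_eq_natDegree hPm.ne_zero, hPd]
    exact_mod_cast Nat.pos_of_ne_zero hS
  have hFm : (P - 1).Monic := hPm.sub_of_left hd1
  have hFd : (P - 1).natDegree = S.card := by
    rw [← hPd]
    exact natDegree_eq_of_degree_eq (degree_sub_eq_left_of_degree_lt hd1)
  refine ⟨fun hu => ?_, fun {G H} hGH => ?_⟩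
  · have := natDegree_eq_zero_of_isUnit hu
    rw [hFd] at this
    exact hS this
  · have hlc : G.leadingCoeff * H.leadingCoeff = 1 := by
      rw [← leadingCoeff_mul, ← hGH]
      exact hFm
    have hG0 : G ≠ 0 := by
      rintro rfl
      simp at hlc
    have hH0 : H ≠ 0 := by
      rintro rfl
      simp at hlc
    have hdeg : G.natDegree + H.natDegree = S.card := by
      rw [← natDegree_mul hG0 hH0, ← hGH, hFd]
    have unit_of : ∀ {G' H' : ℤ[X]}, G'.leadingCoeff * H'.leadingCoeff = 1 →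
        G'.natDegree = 0 → IsUnit G' := by
      intro G' H' h1 h2
      obtain ⟨c, rfl⟩ := natDegree_eq_zero.1 h2
      rw [leadingCoeff_C] at h1
      exact (isUnit_C).2 (IsUnit.of_mul_eq_one _ h1)
    by_cases hGd : G.natDegree = 0
    · exact Or.inl (unit_of hlc hGd)
    by_cases hHd : H.natDegree = 0
    · exact Or.inr (unit_of (by rw [mul_comm]; exact hlc) hHd)
    exfalso
    have hsum : G + H = 0 := by
      apply eq_zero_of_natDegree_lt_card_of_eval_eq_zero' (G + H) S
      · intro a ha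
        have h1 : (P - 1).eval a = -1 := by
          have : P.eval a = 0 := by
            rw [hP, eval_prod]
            exact Finset.prod_eq_zero ha (by simp)
          rw [eval_sub, this, eval_one, zero_sub]
        rw [hGH, eval_mul] at h1
        rcases Int.mul_eq_neg_one_iff_eq_one_or_neg_one.1 h1 with ⟨h2, h3⟩ | ⟨h2, h3⟩
        · rw [eval_add, h2, h3]; norm_num
        · rw [eval_add, h2, h3]; norm_num
      · refine lt_of_le_of_lt (natDegree_add_le _ _) (max_lt ?_ ?_) <;> omega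
    have hH : H = -G := by linear_combination hsum
    rw [hH, leadingCoeff_neg] at hlc
    nlinarith [sq_nonneg G.leadingCoeff]

theorem schur_rat {S : Finset ℤ} (hS : S.card ≠ 0) :
    Irreducible ((∏ a ∈ S, (X - C (a : ℚ))) - 1 : ℚ[X]) := by
  have h := schur hS
  have hm : ((∏ a ∈ S, (X - C a)) - 1 : ℤ[X]).Monic := by
    have hPm : (∏ a ∈ S, (X - C a) : ℤ[X]).Monic :=
      monic_prod_of_monic _ _ fun a _ => monic_X_sub_C a
    apply hPm.sub_of_left
    rw [degree_one, degree_eq_natDegree hPm.ne_zero,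
      natDegree_prod_of_monic _ _ fun a _ => monic_X_sub_C a]
    simp only [natDegree_X_sub_C, Finset.sum_const, smul_eq_mul, mul_one]
    exact_mod_cast Nat.pos_of_ne_zero hS
  have h2 := (hm.irreducible_iff_irreducible_map_fraction_map (K := ℚ)).1 h
  convert h2 using 1
  simp [Polynomial.map_sub, Polynomial.map_prod]

theorem rat_hyp {S : Finset ℤ} (hS : Odd S.card) :
    Irreducible ((∏ a ∈ S, (X - C (a : ℚ))) - 1 : ℚ[X]) ∧
    SqStable ((∏ a ∈ S, (X - C (a : ℚ))) - 1 : ℚ[X]) ∧
    (¬ IsSquare (-1 : ℚ) ∧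
      (¬ ∃ (c : ℚ) (s : ℚ[X]), (∏ a ∈ S, (X - C (a : ℚ))) = C c * s ^ 2) ∧
      ∀ π : ℚ[X], Irreducible π → π ∣ (∏ a ∈ S, (X - C (a : ℚ))) → SqStable π) := by
  have hS0 : S.card ≠ 0 := by
    intro h
    rw [h] at hS
    exact absurd hS (by decide)
  have hPm : (∏ a ∈ S, (X - C (a : ℚ)) : ℚ[X]).Monic :=
    monic_prod_of_monic _ _ fun a _ => monic_X_sub_C _
  have hPd : (∏ a ∈ S, (X - C (a : ℚ)) : ℚ[X]).natDegree = S.card := by
    rw [natDegree_prod_of_monic _ _ fun a _ => monic_X_sub_C _]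
    simp only [natDegree_X_sub_C, Finset.sum_const, smul_eq_mul, mul_one]
  have hirr := schur_rat hS0
  have hd1 : (1 : ℚ[X]).degree < (∏ a ∈ S, (X - C (a : ℚ)) : ℚ[X]).degree := by
    rw [degree_one, degree_eq_natDegree hPm.ne_zero, hPd]
    exact_mod_cast Nat.pos_of_ne_zero hS0
  refine ⟨hirr, sqStable_of_odd hirr ?_, ?_, ?_, ?_⟩
  · rw [natDegree_eq_of_degree_eq (degree_sub_eq_left_of_degree_lt hd1), hPd]
    exact hS
  · rintro ⟨r, hr⟩
    nlinarith [mul_self_nonneg r]
  · rintro ⟨c, s, hcs⟩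
    have h1 := hPd
    rw [hcs] at h1
    have hc : c ≠ 0 := by
      rintro rfl
      rw [C_0, zero_mul] at hcs
      exact hPm.ne_zero hcs
    have hs : s ≠ 0 := by
      rintro rfl
      rw [zero_pow two_ne_zero, mul_zero] at hcs
      exact hPm.ne_zero hcs
    rw [natDegree_C_mul hc, natDegree_pow] at h1
    rw [← h1] at hS
    rw [← Nat.not_even_iff_odd] at hS
    exact hS ⟨s.natDegree, by ring⟩
  · intro π hπ hd
    obtain ⟨a, ha, hda⟩ := (hπ.prime.dvd_finset_prod_iff _).1 hd
    apply sqStable_of_odd hπ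
    have h1 : Associated π (X - C (a : ℚ)) :=
      (hπ.dvd_irreducible_iff_associated (irreducible_X_sub_C _)).1 hda
    rw [natDegree_eq_of_degree_eq (degree_eq_degree_of_associated h1), natDegree_X_sub_C]
    exact odd_one

theorem kummer_hyp {k : Type u} [Field k] {l : ℕ} (hl : l.Prime) (hl2 : l ≠ 2) {c : k}
    (hc : ∀ b : k, b ^ l ≠ c) (hc1 : ∀ b : k, b ^ l ≠ c + 1) (j : ℕ) :
    Irreducible (X ^ l ^ j - C c - 1 : k[X]) ∧ SqStable (X ^ l ^ j - C c - 1 : k[X]) ∧
    Irreducible (X ^ l ^ j - C c : k[X]) ∧ SqStable (X ^ l ^ j - C c : k[X]) := by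
  have hodd : Odd (l ^ j) := (hl.odd_of_ne_two hl2).pow
  have hpos : 0 < l ^ j := pow_pos hl.pos _
  have e : (X ^ l ^ j - C c - 1 : k[X]) = X ^ l ^ j - C (c + 1) := by
    rw [C_add, C_1]; ring
  have h1 : Irreducible (X ^ l ^ j - C c : k[X]) :=
    X_pow_sub_C_irreducible_of_prime_pow hl hl2 j hc
  have h2 : Irreducible (X ^ l ^ j - C (c + 1) : k[X]) :=
    X_pow_sub_C_irreducible_of_prime_pow hl hl2 j hc1
  rw [e]
  refine ⟨h2, sqStable_of_odd h2 ?_, h1, sqStable_of_odd h1 ?_⟩
  · rw [natDegree_X_pow_sub_C]; exact hodd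
  · rw [natDegree_X_pow_sub_C]; exact hodd

end Pool.Agent.W309.TD
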