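import Pool.Agent.W309.TD.Curve

/-!
Two-torsion valued cocycles, square roots, and the relation with the coordinates of the double.
-/

set_option autoImplicit false
set_option linter.all false

open WeierstrassCurve WeierstrassCurve.Affine
open scoped Classical

namespace Pool.Agent.W309.TD

section square

variable {F : Type*} [Field F] {W : Affine F} {γ : F}

/-- Representative of `x(Q)` modulo squares. -/
noncomputable def d0 (γ : F) : W.Point → F
  | .zero => 1
  | .some x _ _ => if x = 0 then γ else x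

/-- Representative of `x(Q) - 1` modulo squares. -/
noncomputable def d1 (γ : F) : W.Point → F
  | .zero => 1
  | .some x _ _ => if x = 1 then 1 - γ else x - 1

noncomputable def h0 (γ : F) (P : W.Point) : F :=
  if P + P = 0 then 1 else if r0 γ P = 0 then r1 γ P * rg γ P else r0 γ P

noncomputable def h1 (γ : F) (P : W.Point) : F :=
  if P + P = 0 then 1 else if r1 γ P = 0 then r0 γ P * rg γ P else r1 γ P

theorem h0_sq (h : IsLeg W γ) (P : W.Point) : h0 γ P ^ 2 = d0 γ (P + P) := by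
  unfold h0
  split_ifs with c1 c2
  · rw [c1]; simp [d0, Point.zero_def]
  · obtain ⟨X, Y, hQ, e1, e2, e3, e4, -⟩ := double h c1
    rw [e1]
    rw [c2] at e2
    have hX : X = 0 := by rw [← e2]; ring
    rw [mul_pow, e3, e4]
    simp only [d0, hX, if_true]
    ring
  · obtain ⟨X, Y, hQ, e1, e2, e3, e4, -⟩ := double h c1
    rw [e1]
    have hX : X ≠ 0 := by rw [← e2]; exact pow_ne_zero 2 c2
    simp only [d0, hX, if_false, e2]

theorem h1_sq (h : IsLeg W γ) (P : W.Point) : h1 γ P ^ 2 = d1 γ (P + P) := by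
  unfold h1
  split_ifs with c1 c2
  · rw [c1]; simp [d1, Point.zero_def]
  · obtain ⟨X, Y, hQ, e1, e2, e3, e4, -⟩ := double h c1
    rw [e1]
    rw [c2] at e3
    have hX : X = 1 := by linear_combination -e3
    rw [mul_pow, e2, e4]
    simp only [d1, hX, if_true]
    ring
  · obtain ⟨X, Y, hQ, e1, e2, e3, e4, -⟩ := double h c1
    rw [e1]
    have hX : X ≠ 1 := by
      intro hX
      rw [hX] at e3
      apply c2
      exact pow_eq_zero_iff (two_ne_zero) |>.1 (by rw [e3]; ring)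
    simp only [d1, hX, if_false, e3]

theorem d0_ne (h : IsLeg W γ) (Q : W.Point) : d0 γ Q ≠ 0 := by
  rcases Q with _ | ⟨x, y, hxy⟩
  · simp [d0]
  · simp only [d0]
    split_ifs with c
    · exact h.ne0
    · exact c

theorem d1_ne (h : IsLeg W γ) (Q : W.Point) : d1 γ Q ≠ 0 := by
  rcases Q with _ | ⟨x, y, hxy⟩
  · simp [d1]
  · simp only [d1]
    split_ifs with c
    · exact sub_ne_zero.2 (Ne.symm h.ne1)
    · exact sub_ne_zero.2 c

theorem h0_ne (h : IsLeg W γ) (P : W.Point) : h0 γ P ≠ 0 := by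
  intro h'
  apply d0_ne h (P + P)
  rw [← h0_sq h, h']; ring

theorem h1_ne (h : IsLeg W γ) (P : W.Point) : h1 γ P ≠ 0 := by
  intro h'
  apply d1_ne h (P + P)
  rw [← h1_sq h, h']; ring

theorem s0_sq (T : W.Point) : s0 T = 1 ∨ s0 T = -1 := by
  rcases T with _ | ⟨x, y, hxy⟩
  · left; rfl
  · simp only [s0]; split_ifs <;> simp

theorem s1_sq (T : W.Point) : s1 T = 1 ∨ s1 T = -1 := by
  rcases T with _ | ⟨x, y, hxy⟩
  · left; rfl
  · simp only [s1]; split_ifs <;> simp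

theorem s0_ne (T : W.Point) : s0 T ≠ 0 := by
  rcases s0_sq T with h | h <;> rw [h] <;> simp

theorem s1_ne (T : W.Point) : s1 T ≠ 0 := by
  rcases s1_sq T with h | h <;> rw [h] <;> simp

theorem h_translate (h : IsLeg W γ) {P T : W.Point} (hT : T + T = 0) (hPT : P + P = 0 → T = 0) :
    h0 γ (P + T) = s0 T * h0 γ P ∧ h1 γ (P + T) = s1 T * h1 γ P := by
  by_cases hP : P + P = 0
  · rw [hPT hP, add_zero]
    simp [s0, s1, Point.zero_def]
  · have h2 : (P + T) + (P + T) = P + P := by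
      rw [add_add_add_comm, hT, add_zero]
    obtain ⟨t0, t1, tg⟩ := translate h hP hT
    unfold h0 h1
    rw [h2, if_neg hP, if_neg hP, if_neg hP, if_neg hP, t0, t1, tg]
    have e0 : s0 T * r0 γ P = 0 ↔ r0 γ P = 0 := by simp [s0_ne T]
    have e1 : s1 T * r1 γ P = 0 ↔ r1 γ P = 0 := by simp [s1_ne T]
    rw [e0, e1]
    constructor
    · split_ifs
      · rcases s1_sq T with h | h <;> rw [h] <;> ring
      · rfl
    · split_ifs
      · rcases s0_sq T with h | h <;> rw [h] <;> ring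
      · rfl

/-- The signs determine a point of order two. -/
theorem tor_ext (h : IsLeg W γ) {S T : W.Point} (hS : S + S = 0) (hT : T + T = 0)
    (e0 : s0 S = s0 T) (e1 : s1 S = s1 T) : S = T := by
  have h11 : (1 : F) ≠ -1 := by
    intro h'
    exact h.two (by linear_combination h')
  have key : ∀ {P : W.Point}, P + P = 0 → (P = 0 ∧ s0 P = 1 ∧ s1 P = 1) ∨
      (∃ hn, P = Point.some 0 0 hn ∧ s0 P = 1 ∧ s1 P = -1) ∨
      (∃ hn, P = Point.some 1 0 hn ∧ s0 P = -1 ∧ s1 P = 1) ∨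
      (∃ hn, P = Point.some γ 0 hn ∧ s0 P = -1 ∧ s1 P = -1) := by
    intro P hP
    rcases P with _ | ⟨x, y, hxy⟩
    · left; exact ⟨rfl, rfl, rfl⟩
    · right
      obtain rfl : y = 0 := (add_self_eq_zero_iff h hxy).1 hP
      rcases root_of_tor h hxy rfl with rfl | rfl | rfl
      · left; exact ⟨hxy, rfl, by simp [s0], by simp [s1]⟩
      · right; left; exact ⟨hxy, rfl, by simp [s0], by simp [s1]⟩
      · right; right; exact ⟨hxy, rfl, by simp [s0, h.ne0], by simp [s1, h.ne1]⟩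
  rcases key hS with ⟨a1, a2, a3⟩ | ⟨hn, a1, a2, a3⟩ | ⟨hn, a1, a2, a3⟩ | ⟨hn, a1, a2, a3⟩ <;>
  rcases key hT with ⟨b1, b2, b3⟩ | ⟨hn', b1, b2, b3⟩ | ⟨hn', b1, b2, b3⟩ | ⟨hn', b1, b2, b3⟩ <;>
  rw [a2, b2] at e0 <;> rw [a3, b3] at e1 <;>
  first
  | exact absurd e0 h11
  | exact absurd e1 h11
  | exact absurd e0.symm h11
  | exact absurd e1.symm h11
  | (rw [a1, b1])

theorem halve_sep [IsSepClosed F] (h : IsLeg W γ) (Q : W.Point) : ∃ P : W.Point, P + P = Q := by
  rcases Q with _ | ⟨x, y, hxy⟩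
  · exact ⟨0, by rw [add_zero, Point.zero_def]⟩
  · haveI : NeZero ((2 : ℕ) : F) := ⟨by exact_mod_cast h.two⟩
    obtain ⟨u, hu⟩ := IsSepClosed.exists_pow_nat_eq x 2
    obtain ⟨v, hv⟩ := IsSepClosed.exists_pow_nat_eq (x - 1) 2
    obtain ⟨w, hw⟩ := IsSepClosed.exists_pow_nat_eq (x - γ) 2
    exact halve h hxy hu hv hw

end square

universe u

section action

variable {K Ω Ω' : Type u} [Field K] [Field Ω] [Field Ω'] [Algebra K Ω] [Algebra K Ω']

/-- Points over an extension. -/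
abbrev Pt (W : WeierstrassCurve K) (Ω : Type u) [Field Ω] [Algebra K Ω] : Type u :=
  (W.baseChange Ω).toAffine.Point

/-- The map on points. -/
noncomputable def act (W : WeierstrassCurve K) (φ : Ω →ₐ[K] Ω') : Pt W Ω →+ Pt W Ω' :=
  Point.map (W' := W.toAffine) φ

variable (W : WeierstrassCurve K)

theorem act_zero (φ : Ω →ₐ[K] Ω') : act W φ (Point.zero) = Point.zero := rfl

theorem act_some (φ : Ω →ₐ[K] Ω') {x y : Ω} (hxy : (W.baseChange Ω).toAffine.Nonsingular x y) :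
    ∃ h, act W φ (Point.some x y hxy) = Point.some (φ x) (φ y) h :=
  ⟨_, rfl⟩

theorem act_inj (φ : Ω →ₐ[K] Ω') : Function.Injective (act W φ) :=
  Point.map_injective (W' := W.toAffine) φ

theorem act_act {Ω'' : Type u} [Field Ω''] [Algebra K Ω''] (φ : Ω →ₐ[K] Ω')
    (ψ : Ω' →ₐ[K] Ω'') (P : Pt W Ω) : act W ψ (act W φ P) = act W (ψ.comp φ) P :=
  Point.map_map (W' := W.toAffine) φ ψ P

theorem rt_act (φ : Ω →ₐ[K] Ω') (e D : Ω) (P : Pt W Ω) :
    rt (φ e) (φ D) (act W φ P) = φ (rt e D P) := by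
  rcases P with _ | ⟨x, y, hxy⟩
  · rw [act_zero]; simp [rt]
  · obtain ⟨h, hh⟩ := act_some W φ hxy
    rw [hh]
    simp only [rt, map_div₀, map_sub, map_pow, map_mul, map_ofNat]

theorem r0_act (φ : Ω →ₐ[K] Ω') (γ : Ω) (P : Pt W Ω) :
    r0 (φ γ) (act W φ P) = φ (r0 γ P) := by
  have := rt_act W φ 0 γ P
  rwa [map_zero] at this

theorem r1_act (φ : Ω →ₐ[K] Ω') (γ : Ω) (P : Pt W Ω) :
    r1 (φ γ) (act W φ P) = φ (r1 γ P) := by
  have := rt_act W φ 1 (1 - γ) P
  rwa [map_one, map_sub, map_one] at this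

theorem rg_act (φ : Ω →ₐ[K] Ω') (γ : Ω) (P : Pt W Ω) :
    rg (φ γ) (act W φ P) = φ (rg γ P) := by
  have := rt_act W φ γ (γ ^ 2 - γ) P
  rwa [map_sub, map_pow] at this

theorem two_act (φ : Ω →ₐ[K] Ω') (P : Pt W Ω) : act W φ P + act W φ P = 0 ↔ P + P = 0 := by
  rw [← map_add]
  constructor
  · intro h
    apply act_inj W φ
    rw [h, map_zero]
  · intro h
    rw [h, map_zero]

theorem h0_act (φ : Ω →ₐ[K] Ω') (γ : Ω) (P : Pt W Ω) :
    h0 (φ γ) (act W φ P) = φ (h0 γ P) := by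
  unfold h0
  rw [r0_act, r1_act, rg_act]
  simp only [two_act, map_eq_zero]
  split_ifs <;> simp

theorem h1_act (φ : Ω →ₐ[K] Ω') (γ : Ω) (P : Pt W Ω) :
    h1 (φ γ) (act W φ P) = φ (h1 γ P) := by
  unfold h1
  rw [r0_act, r1_act, rg_act]
  simp only [two_act, map_eq_zero]
  split_ifs <;> simp

theorem s0_act (φ : Ω →ₐ[K] Ω') (P : Pt W Ω) : s0 (act W φ P) = φ (s0 P) := by
  rcases P with _ | ⟨x, y, hxy⟩
  · rw [act_zero]; simp [s0]
  · obtain ⟨h, hh⟩ := act_some W φ hxy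
    rw [hh]
    simp only [s0, map_eq_zero]
    split_ifs <;> simp

theorem s1_act (φ : Ω →ₐ[K] Ω') (P : Pt W Ω) : s1 (act W φ P) = φ (s1 P) := by
  rcases P with _ | ⟨x, y, hxy⟩
  · rw [act_zero]; simp [s1]
  · obtain ⟨h, hh⟩ := act_some W φ hxy
    rw [hh]
    have : φ x = 1 ↔ x = 1 := map_eq_one_iff φ φ.injective
    simp only [s1, this]
    split_ifs <;> simp

theorem d0_act (φ : Ω →ₐ[K] Ω') (γ : Ω) (P : Pt W Ω) : d0 (φ γ) (act W φ P) = φ (d0 γ P) := by
  rcases P with _ | ⟨x, y, hxy⟩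
  · rw [act_zero]; simp [d0]
  · obtain ⟨h, hh⟩ := act_some W φ hxy
    rw [hh]
    simp only [d0, map_eq_zero]
    split_ifs <;> simp

theorem d1_act (φ : Ω →ₐ[K] Ω') (γ : Ω) (P : Pt W Ω) : d1 (φ γ) (act W φ P) = φ (d1 γ P) := by
  rcases P with _ | ⟨x, y, hxy⟩
  · rw [act_zero]; simp [d1]
  · obtain ⟨h, hh⟩ := act_some W φ hxy
    rw [hh]
    have : φ x = 1 ↔ x = 1 := map_eq_one_iff φ φ.injective
    simp only [d1, this]
    split_ifs <;> simp

end action

section fixed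

variable {K F Ω : Type u} [Field K] [Field F] [Field Ω] [Algebra K F] [Algebra F Ω] [Algebra K Ω]
  [IsScalarTower K F Ω] [IsGalois F Ω] (W : WeierstrassCurve K)

/-- The inclusion. -/
noncomputable def incl (K F Ω : Type u) [Field K] [Field F] [Field Ω] [Algebra K F] [Algebra F Ω]
    [Algebra K Ω] [IsScalarTower K F Ω] : F →ₐ[K] Ω := IsScalarTower.toAlgHom K F Ω

/-- An automorphism over `F`, over `K`. -/
noncomputable def rs (K : Type u) {F Ω : Type u} [Field K] [Field F] [Field Ω] [Algebra K F]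
    [Algebra F Ω] [Algebra K Ω] [IsScalarTower K F Ω] (τ : Ω ≃ₐ[F] Ω) : Ω →ₐ[K] Ω :=
  τ.toAlgHom.restrictScalars K

theorem rs_apply (τ : Ω ≃ₐ[F] Ω) (x : Ω) : rs K τ x = τ x := rfl

theorem rs_incl (τ : Ω ≃ₐ[F] Ω) (x : F) : rs K τ (incl K F Ω x) = incl K F Ω x := by
  rw [rs_apply]
  exact τ.commutes x

theorem rs_act_incl (τ : Ω ≃ₐ[F] Ω) (P : Pt W F) :
    act W (rs K τ) (act W (incl K F Ω) P) = act W (incl K F Ω) P := by
  have h : (rs K τ).comp (incl K F Ω) = incl K F Ω := AlgHom.ext fun x => rs_incl τ x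
  rw [act_act, h]

theorem fixed_point (Q : Pt W Ω) (hQ : ∀ τ : Ω ≃ₐ[F] Ω, act W (rs K τ) Q = Q) :
    ∃ Q0 : Pt W F, act W (incl K F Ω) Q0 = Q := by
  rcases Q with _ | ⟨x, y, hxy⟩
  · exact ⟨0, rfl⟩
  · have hx : x ∈ Set.range (algebraMap F Ω) := by
      rw [InfiniteGalois.mem_range_algebraMap_iff_fixed]
      intro τ
      have := hQ τ
      obtain ⟨h, hh⟩ := act_some W (rs K τ) hxy
      rw [hh] at this
      exact (Point.some.inj this).1
    have hy : y ∈ Set.range (algebraMap F Ω) := by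
      rw [InfiniteGalois.mem_range_algebraMap_iff_fixed]
      intro τ
      have := hQ τ
      obtain ⟨h, hh⟩ := act_some W (rs K τ) hxy
      rw [hh] at this
      exact (Point.some.inj this).2
    obtain ⟨x', rfl⟩ := hx
    obtain ⟨y', rfl⟩ := hy
    have hxy' : (W.baseChange F).toAffine.Nonsingular x' y' := by
      have := (W.toAffine.baseChange_nonsingular (incl K F Ω).injective x' y').1 hxy
      exact this
    exact ⟨Point.some x' y' hxy', rfl⟩

end fixed

end Pool.Agent.W309.TD
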