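import Pool.Agent.W309.TD.Arith

/-!
The global step over a Dedekind domain: everywhere locally soluble pairs.
-/

set_option autoImplicit false
set_option linter.all false

open WeierstrassCurve WeierstrassCurve.Affine IsDedekindDomain
open scoped Classical

namespace Pool.Agent.W309.TD

universe u

/-- The curve `y ^ 2 = x (x - 1) (x - g)`. -/
def leg {K : Type u} [Field K] (g : K) : WeierstrassCurve K := ⟨0, -(1 + g), 0, g, 0⟩

theorem isLeg {K : Type u} [Field K] (g : K) (F : Type u) [Field F] [Algebra K F]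
    (h2 : (2 : K) ≠ 0) (h0 : g ≠ 0) (h1 : g ≠ 1) :
    IsLeg ((leg g).baseChange F).toAffine (algebraMap K F g) where
  a1 := map_zero _
  a2 := by
    show algebraMap K F (-(1 + g)) = _
    rw [map_neg, map_add, map_one]
  a3 := map_zero _
  a4 := rfl
  a6 := map_zero _
  two := by
    rw [← map_ofNat (algebraMap K F) 2]
    exact (map_ne_zero _).2 h2
  ne0 := (map_ne_zero _).2 h0
  ne1 := by
    intro h
    apply h1
    apply (algebraMap K F).injective
    rw [h, map_one]

variable {R K : Type u} [CommRing R] [IsDedekindDomain R] [Field K] [Algebra R K]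
  [IsFractionRing R K]

section localfacts

variable {g : R} (h2 : (2 : K) ≠ 0) (h0 : algebraMap R K g ≠ 0) (h1 : algebraMap R K g ≠ 1)
  (v : HeightOneSpectrum R) {a0 a1 : K}

theorem wv (x : K) : Valued.v (R := v.adicCompletion K) (Γ₀ := WithZero (Multiplicative ℤ))
      (algebraMap K (v.adicCompletion K) x) = v.valuation K x :=
  HeightOneSpectrum.adicCompletion.valued_coe K v x

include h2 h0 h1

theorem factA (hg : v.valuation K (algebraMap R K g) = 1)
    (hg1 : v.valuation K (algebraMap R K g - 1) = 1)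
    (hs : LocSol (leg (algebraMap R K g)) (algebraMap R K g) (v.adicCompletion K) a0 a1) :
    IsSquare (v.valuation K a0) ∧ IsSquare (v.valuation K a1) := by
  obtain ⟨Q, c0, c1, n0, n1, e0, e1⟩ := hs
  have hL := isLeg (algebraMap R K g) (v.adicCompletion K) h2 h0 h1
  obtain ⟨k0, k1⟩ := local_good (v := Valued.v (R := v.adicCompletion K)
    (Γ₀ := WithZero (Multiplicative ℤ))) hL (by rw [wv]; exact hg)
    (by rw [← map_one (algebraMap K (v.adicCompletion K)), ← map_sub, wv]; exact hg1) Q
  rw [← wv v, ← wv v, e0, e1, map_mul, map_mul, map_pow, map_pow, pow_two, pow_two]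
  exact ⟨(IsSquare.mul ⟨_, rfl⟩ k0), (IsSquare.mul ⟨_, rfl⟩ k1)⟩

theorem factB (hg1 : v.valuation K (algebraMap R K g - 1) < 1)
    (hs : LocSol (leg (algebraMap R K g)) (algebraMap R K g) (v.adicCompletion K) a0 a1) :
    Sq (v.valuation K) a0 := by
  obtain ⟨Q, c0, c1, n0, n1, e0, e1⟩ := hs
  have hL := isLeg (algebraMap R K g) (v.adicCompletion K) h2 h0 h1
  have k0 := local_one (v := Valued.v (R := v.adicCompletion K)
    (Γ₀ := WithZero (Multiplicative ℤ))) hL
    (by rw [← map_one (algebraMap K (v.adicCompletion K)), ← map_sub, wv]; exact hg1) Q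
  apply sq_transfer
  rw [e0]
  exact (Sq.sq n0).mul k0

theorem factC (hg : v.valuation K (algebraMap R K g) < 1)
    (hs : LocSol (leg (algebraMap R K g)) (algebraMap R K g) (v.adicCompletion K) a0 a1) :
    (Sq (v.valuation K) a1 ∧ IsSquare (v.valuation K a0)) ∨
    (Sq (v.valuation K) (-a1) ∧ (Sq (v.valuation K) a1 ∨
      IsSquare (v.valuation K a0 * v.valuation K (algebraMap R K g)))) := by
  obtain ⟨Q, c0, c1, n0, n1, e0, e1⟩ := hs
  have hL := isLeg (algebraMap R K g) (v.adicCompletion K) h2 h0 h1
  have k0 := local_zero (v := Valued.v (R := v.adicCompletion K)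
    (Γ₀ := WithZero (Multiplicative ℤ))) hL (by rw [wv]; exact hg) Q
  have m1 : ∀ b : v.adicCompletion K, b = d1 (algebraMap K (v.adicCompletion K)
      (algebraMap R K g)) Q → Sq (Valued.v (R := v.adicCompletion K)
      (Γ₀ := WithZero (Multiplicative ℤ))) b → Sq (v.valuation K) a1 := by
    rintro b rfl hb
    apply sq_transfer
    rw [e1]
    exact (Sq.sq n1).mul hb
  have m2 : Sq (Valued.v (R := v.adicCompletion K) (Γ₀ := WithZero (Multiplicative ℤ)))
      (- d1 (algebraMap K (v.adicCompletion K) (algebraMap R K g)) Q) →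
      Sq (v.valuation K) (-a1) := by
    intro hb
    apply sq_transfer
    rw [map_neg, e1, ← mul_neg]
    exact (Sq.sq n1).mul hb
  have m3 : IsSquare (v.valuation K a0) ↔ IsSquare (Valued.v (R := v.adicCompletion K)
      (Γ₀ := WithZero (Multiplicative ℤ)) (d0 (algebraMap K (v.adicCompletion K)
      (algebraMap R K g)) Q)) := by
    rw [← wv v, e0, map_mul, map_pow, pow_two]
    constructor
    · intro h
      refine IsSquare.of_mul_left' ⟨_, rfl⟩ ?_ h
      exact mul_ne_zero (Valuation.ne_zero_iff _ |>.2 n0) (Valuation.ne_zero_iff _ |>.2 n0)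
    · intro h
      exact IsSquare.mul ⟨_, rfl⟩ h
  rcases k0 with ⟨k1, k2⟩ | ⟨k1, k2⟩
  · exact Or.inl ⟨m1 _ rfl k1, m3.2 k2⟩
  · refine Or.inr ⟨m2 k1, ?_⟩
    rcases k2 with k2 | k2
    · exact Or.inl (m1 _ rfl k2)
    · right
      rw [← wv v, ← wv v, e0, map_mul, map_pow, pow_two, mul_assoc]
      exact IsSquare.mul ⟨_, rfl⟩ k2

end localfacts

/-- The global step. -/
theorem global (h2 : (2 : K) ≠ 0) (hcl : NoTwo R) (g : R)
    (q : HeightOneSpectrum R) (hq : ¬ IsSquare (q.intValuation (g - 1)))
    (hq' : ∀ v : HeightOneSpectrum R, v ≠ q → v.intValuation (g - 1) = 1)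
    (p : HeightOneSpectrum R) (hp : ¬ IsSquare (p.intValuation g))
    (halt : (∀ v : HeightOneSpectrum R, g ∈ v.asIdeal → v = p) ∨ ¬ IsSquare (-1 : R))
    (hUq : ∀ u : Rˣ, (∃ a : R, (u : R) - a ^ 2 ∈ q.asIdeal) → ∃ b : R, (u : R) = b ^ 2)
    (hUp : ∀ v : HeightOneSpectrum R, g ∈ v.asIdeal → ∀ u : Rˣ,
      (∃ a : R, (u : R) - a ^ 2 ∈ v.asIdeal) → ∃ b : R, (u : R) = b ^ 2) :
    GlobalProp (leg (algebraMap R K g)) (algebraMap R K g)
      (fun v : HeightOneSpectrum R => v.adicCompletion K) := by
  intro a0 a1 n0 n1 hloc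
  have vg : ∀ v : HeightOneSpectrum R, v.valuation K (algebraMap R K g) = v.intValuation g :=
    fun v => v.valuation_of_algebraMap g
  have vg1 : ∀ v : HeightOneSpectrum R, v.valuation K (algebraMap R K g - 1) =
      v.intValuation (g - 1) := fun v => by
    rw [← map_one (algebraMap R K), ← map_sub]
    exact v.valuation_of_algebraMap (g - 1)
  have vg1' : ∀ v : HeightOneSpectrum R, v.valuation K (1 - algebraMap R K g) =
      v.intValuation (g - 1) := fun v => by
    rw [Valuation.map_sub_swap]; exact vg1 v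
  -- `g ≠ 0, 1`
  have h0 : algebraMap R K g ≠ 0 := by
    intro h
    have hg : g = 0 := by simpa using h
    apply hp
    rw [hg, map_zero]; exact ⟨0, (mul_zero 0).symm⟩
  have h1 : algebraMap R K g ≠ 1 := by
    intro h
    have hg : g = 1 := by
      apply IsFractionRing.injective R K
      rw [h, map_one]
    apply hq
    rw [hg, sub_self, map_zero]; exact ⟨0, (mul_zero 0).symm⟩
  have h1' : (1 : K) - algebraMap R K g ≠ 0 := sub_ne_zero.2 (Ne.symm h1)
  have hL := isLeg (algebraMap R K g) K h2 h0 h1
  have hL' : IsLeg ((leg (algebraMap R K g)).baseChange K).toAffine (algebraMap R K g) := hL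
  -- the place `q`
  have hqlt : q.valuation K (algebraMap R K g - 1) < 1 := by
    rw [vg1]
    exact lt_of_le_of_ne (q.intValuation_le_one _) (fun h => hq (by rw [h]; exact ⟨1, (mul_one 1).symm⟩))
  have hplt : p.valuation K (algebraMap R K g) < 1 := by
    rw [vg]
    exact lt_of_le_of_ne (p.intValuation_le_one _) (fun h => hp (by rw [h]; exact ⟨1, (mul_one 1).symm⟩))
  have near : ∀ v : HeightOneSpectrum R, v.valuation K (algebraMap R K g) < 1 →
      v.valuation K ((1 - algebraMap R K g) - 1) < 1 := fun v hv => by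
    have : (1 - algebraMap R K g) - 1 = - algebraMap R K g := by ring
    rw [this, Valuation.map_neg]; exact hv
  have ne_q : ∀ v : HeightOneSpectrum R, v.valuation K (algebraMap R K g) < 1 → v ≠ q := by
    rintro v hv rfl
    have e1 := val_one_add (near v hv)
    rw [vg1', ← vg1] at e1
    exact absurd e1 hqlt.ne
  have mem_of : ∀ v : HeightOneSpectrum R, v.valuation K (algebraMap R K g) < 1 →
      g ∈ v.asIdeal := fun v hv => (v.valuation_lt_one_iff_mem (K := K) g).1 hv
  have gle : ∀ v : HeightOneSpectrum R, v.valuation K (algebraMap R K g) ≤ 1 :=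
    fun v => v.valuation_le_one g
  -- parity of `a0`, `a1` away from `g`
  have ev0 : ∀ v : HeightOneSpectrum R, v.valuation K (algebraMap R K g) = 1 →
      IsSquare (v.valuation K a0) := by
    intro v hv
    by_cases hvq : v = q
    · subst hvq
      exact (factB h2 h0 h1 v hqlt (hloc v)).even
    · exact (factA h2 h0 h1 v hv (by rw [vg1]; exact hq' v hvq) (hloc v)).1
  have ev1 : ∀ v : HeightOneSpectrum R, v ≠ q → IsSquare (v.valuation K a1) := by
    intro v hvq
    rcases (gle v).eq_or_lt with hv | hv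
    · exact (factA h2 h0 h1 v hv (by rw [vg1]; exact hq' v hvq) (hloc v)).2
    · rcases factC h2 h0 h1 v hv (hloc v) with ⟨k, -⟩ | ⟨k, -⟩
      · exact k.even
      · have := k.even
        rwa [Valuation.map_neg] at this
  -- units
  have unit_sq : ∀ v : HeightOneSpectrum R, (v = q ∨ g ∈ v.asIdeal) → ∀ u : Rˣ,
      Sq (v.valuation K) (algebraMap R K (u : R)) → ∃ b : R, (u : R) = b ^ 2 := by
    intro v hv u hu
    have hun : (u : R) ∉ v.asIdeal := fun h =>
      v.isPrime.ne_top (Ideal.eq_top_of_isUnit_mem _ h u.isUnit)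
    have := sq_unit v hu hun
    rcases hv with rfl | hv
    · exact hUq u this
    · exact hUp v hv u this
  have nosq : ¬ IsSquare (-1 : R) → ∀ v : HeightOneSpectrum R, g ∈ v.asIdeal →
      ¬ Sq (v.valuation K) (-1 : K) := by
    intro hm v hv hs
    obtain ⟨b, hb⟩ := unit_sq v (Or.inr hv) (-1) (by
      rw [Units.val_neg, Units.val_one, map_neg, map_one]; exact hs)
    apply hm
    rw [Units.val_neg, Units.val_one] at hb
    exact ⟨b, by rw [hb, pow_two]⟩
  have both : ∀ {v : HeightOneSpectrum R} {a : K}, Sq (v.valuation K) a →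
      Sq (v.valuation K) (-a) → Sq (v.valuation K) (-1 : K) := by
    intro v a ha ha'
    have h3 := ha.mul ha'
    have e : a * -a = a ^ 2 * (-1) := by ring
    rw [e] at h3
    exact Sq.cancel ha.ne h3
  -- at the primes dividing `g` with even valuation
  have evD : ∀ v : HeightOneSpectrum R, v.valuation K (algebraMap R K g) < 1 →
      IsSquare (v.valuation K (algebraMap R K g)) → IsSquare (v.valuation K a0) := by
    intro v hv he
    rcases halt with ha | ha
    · exfalso
      apply hp
      rw [← vg, ← ha v (mem_of v hv)]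
      exact he
    · rcases factC h2 h0 h1 v hv (hloc v) with ⟨-, k⟩ | ⟨k1, k2⟩
      · exact k
      · rcases k2 with k2 | k2
        · exact absurd (both k2 k1) (nosq ha v (mem_of v hv))
        · rw [mul_comm] at k2
          exact IsSquare.of_mul_left' he ((Valuation.ne_zero_iff _).2 h0) k2
  -- odd valuation
  have evC : ∀ v : HeightOneSpectrum R, v.valuation K (algebraMap R K g) < 1 →
      ¬ IsSquare (v.valuation K (algebraMap R K g)) → IsSquare (v.valuation K a0) →
      Sq (v.valuation K) a1 := by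
    intro v hv he he'
    rcases factC h2 h0 h1 v hv (hloc v) with ⟨k, -⟩ | ⟨k1, k2⟩
    · exact k
    · rcases k2 with k2 | k2
      · exact k2
      · exact absurd (IsSquare.of_mul_left' he' ((Valuation.ne_zero_iff _).2 n0) k2) he
  have evC' : ∀ v : HeightOneSpectrum R, v.valuation K (algebraMap R K g) < 1 →
      ¬ IsSquare (v.valuation K a0) → Sq (v.valuation K) (-a1) := by
    intro v hv he'
    rcases factC h2 h0 h1 v hv (hloc v) with ⟨-, k⟩ | ⟨k1, -⟩
    · exact absurd k he'
    · exact k1
  -- adjust `a1` at `q`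
  obtain ⟨ε, hε, e1, he1, hev⟩ : ∃ ε : Bool, ε = ε ∧ ∃ e1 : K,
      e1 = (if ε then a1 * (1 - algebraMap R K g) else a1) ∧
      ∀ v : HeightOneSpectrum R, IsSquare (v.valuation K e1) := by
    by_cases hqa : IsSquare (q.valuation K a1)
    · refine ⟨false, rfl, _, rfl, fun v => ?_⟩
      simp only [Bool.false_eq_true, if_false]
      by_cases hvq : v = q
      · rw [hvq]; exact hqa
      · exact ev1 v hvq
    · refine ⟨true, rfl, _, rfl, fun v => ?_⟩
      simp only [if_true]
      rw [map_mul]
      by_cases hvq : v = q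
      · rw [hvq]
        exact sq_of_nonsq hqa (by rw [vg1']; exact hq)
      · rw [vg1', hq' v hvq, mul_one]; exact ev1 v hvq
  have ne1 : e1 ≠ 0 := by
    rw [he1]
    split_ifs
    · exact mul_ne_zero n1 h1'
    · exact n1
  have toE : ∀ v : HeightOneSpectrum R, v.valuation K (algebraMap R K g) < 1 →
      Sq (v.valuation K) a1 → Sq (v.valuation K) e1 := by
    intro v hv hs
    rw [he1]
    split_ifs
    · exact hs.mul (Sq.of_one (near v hv))
    · exact hs
  have toE' : ∀ v : HeightOneSpectrum R, v.valuation K (algebraMap R K g) < 1 →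
      Sq (v.valuation K) (-a1) → Sq (v.valuation K) (-e1) := by
    intro v hv hs
    rw [he1]
    split_ifs
    · rw [← neg_mul]
      exact hs.mul (Sq.of_one (near v hv))
    · exact hs
  obtain ⟨u1, t1, nt1, et1⟩ := even_rep (R := R) hcl ne1 hev
  have final : ∀ (δ0 δ1 : K) (T : Pt (leg (algebraMap R K g)) K) (w0 w1 : K), T + T = 0 →
      w0 ≠ 0 → w1 ≠ 0 → d0 (algebraMap R K g) T = δ0 → d1 (algebraMap R K g) T = δ1 →
      a0 = w0 ^ 2 * δ0 → a1 = w1 ^ 2 * δ1 →
      ∃ (T : Pt (leg (algebraMap R K g)) K) (c0 c1 : K), T + T = 0 ∧ c0 ≠ 0 ∧ c1 ≠ 0 ∧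
        a0 = c0 ^ 2 * d0 (algebraMap R K g) T ∧ a1 = c1 ^ 2 * d1 (algebraMap R K g) T := by
    intro δ0 δ1 T w0 w1 hT k0 k1 k2 k3 k4 k5
    exact ⟨T, w0, w1, hT, k0, k1, by rw [k2, k4], by rw [k3, k5]⟩
  have hn0 : ((leg (algebraMap R K g)).baseChange K).toAffine.Nonsingular 0 0 :=
    hL'.nonsingular.2 (by ring)
  have hn1 : ((leg (algebraMap R K g)).baseChange K).toAffine.Nonsingular 1 0 :=
    hL'.nonsingular.2 (by ring)
  have hng : ((leg (algebraMap R K g)).baseChange K).toAffine.Nonsingular (algebraMap R K g) 0 :=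
    hL'.nonsingular.2 (by ring)
  by_cases hpa : IsSquare (p.valuation K a0)
  · -- `u1` is a square
    have s1 : Sq (p.valuation K) e1 := toE p hplt (evC p hplt (by rw [vg]; exact hp) hpa)
    rw [et1, mul_comm] at s1
    obtain ⟨b, hb⟩ := unit_sq p (Or.inr (mem_of p hplt)) u1 (Sq.cancel nt1 s1)
    have ee1 : e1 = (algebraMap R K b * t1) ^ 2 := by
      rw [et1, hb, map_pow]; ring
    have nb : algebraMap R K b * t1 ≠ 0 := fun h => ne1 (by rw [ee1, h]; ring)
    have hall : ∀ v : HeightOneSpectrum R, IsSquare (v.valuation K a0) := by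
      intro v
      rcases (gle v).eq_or_lt with hv | hv
      · exact ev0 v hv
      · by_cases he : IsSquare (v.valuation K (algebraMap R K g))
        · exact evD v hv he
        · by_contra hno
          rcases halt with ha | ha
          · exact hno (by rw [ha v (mem_of v hv)]; exact hpa)
          · have k1 := toE' v hv (evC' v hv hno)
            have k2 : Sq (v.valuation K) e1 := by rw [ee1]; exact Sq.sq nb
            exact nosq ha v (mem_of v hv) (both k2 k1)
    obtain ⟨u0, t0, nt0, et0⟩ := even_rep (R := R) hcl n0 hall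
    have s0 : Sq (q.valuation K) a0 := factB h2 h0 h1 q hqlt (hloc q)
    rw [et0, mul_comm] at s0
    obtain ⟨b0, hb0⟩ := unit_sq q (Or.inl rfl) u0 (Sq.cancel nt0 s0)
    have ee0 : a0 = (algebraMap R K b0 * t0) ^ 2 := by
      rw [et0, hb0, map_pow]; ring
    have nb0 : algebraMap R K b0 * t0 ≠ 0 := fun h => n0 (by rw [ee0, h]; ring)
    cases ε with
    | false =>
      rw [if_neg (by simp)] at he1
      refine final 1 1 0 _ _ (add_zero 0) nb0 nb (by rw [Point.zero_def]; rfl)
        (by rw [Point.zero_def]; rfl) (by rw [ee0]; ring) (by rw [← he1, ee1]; ring)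
    | true =>
      rw [if_pos rfl] at he1
      refine final 1 (1 - algebraMap R K g) (Point.some 1 0 hn1) _
        (algebraMap R K b * t1 / (1 - algebraMap R K g))
        ((add_self_eq_zero_iff hL' hn1).2 rfl) nb0 (div_ne_zero nb h1')
        (by simp [d0]) (by simp [d1]) (by rw [ee0]; ring) ?_
      rw [div_pow, ← ee1, he1]
      field_simp
  · -- `-u1` is a square
    have s1 : Sq (p.valuation K) (-e1) := toE' p hplt (evC' p hplt hpa)
    rw [et1] at s1
    have e3 : -((algebraMap R K (u1 : R)) * t1 ^ 2) = t1 ^ 2 * algebraMap R K ((-u1 : Rˣ) : R) := by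
      rw [Units.val_neg, map_neg]; ring
    rw [e3] at s1
    obtain ⟨b, hb⟩ := unit_sq p (Or.inr (mem_of p hplt)) (-u1) (Sq.cancel nt1 s1)
    have ee1 : -e1 = (algebraMap R K b * t1) ^ 2 := by
      rw [et1, e3, hb, map_pow]; ring
    have nb : algebraMap R K b * t1 ≠ 0 := fun h => ne1 (by
      have : -e1 = 0 := by rw [ee1, h]; ring
      linear_combination -this)
    have hall : ∀ v : HeightOneSpectrum R, IsSquare (v.valuation K (a0 * algebraMap R K g)) := by
      intro v
      rw [map_mul]
      rcases (gle v).eq_or_lt with hv | hv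
      · rw [hv, mul_one]; exact ev0 v hv
      · by_cases he : IsSquare (v.valuation K (algebraMap R K g))
        · exact (evD v hv he).mul he
        · by_cases hno : IsSquare (v.valuation K a0)
          · exfalso
            rcases halt with ha | ha
            · exact hpa (by rw [← ha v (mem_of v hv)]; exact hno)
            · have k1 := toE v hv (evC v hv he hno)
              have k2 : Sq (v.valuation K) (-e1) := by rw [ee1]; exact Sq.sq nb
              exact nosq ha v (mem_of v hv) (both k1 k2)
          · exact sq_of_nonsq hno he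
    obtain ⟨u0, t0, nt0, et0⟩ := even_rep (R := R) hcl (mul_ne_zero n0 h0) hall
    have s0 : Sq (q.valuation K) (a0 * algebraMap R K g) :=
      (factB h2 h0 h1 q hqlt (hloc q)).mul (Sq.of_one hqlt)
    rw [et0, mul_comm] at s0
    obtain ⟨b0, hb0⟩ := unit_sq q (Or.inl rfl) u0 (Sq.cancel nt0 s0)
    have ee0 : a0 * algebraMap R K g = (algebraMap R K b0 * t0) ^ 2 := by
      rw [et0, hb0, map_pow]; ring
    have nb0 : algebraMap R K b0 * t0 ≠ 0 := fun h => mul_ne_zero n0 h0 (by rw [ee0, h]; ring)
    cases ε with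
    | false =>
      rw [if_neg (by simp)] at he1
      refine final (algebraMap R K g) (-1) (Point.some 0 0 hn0)
        (algebraMap R K b0 * t0 / algebraMap R K g) (algebraMap R K b * t1)
        ((add_self_eq_zero_iff hL' hn0).2 rfl) (div_ne_zero nb0 h0) nb
        (by simp [d0]) (by simp [d1]) ?_ (by rw [← ee1, he1]; ring)
      rw [div_pow, ← ee0]
      field_simp
    | true =>
      rw [if_pos rfl] at he1
      refine final (algebraMap R K g) (algebraMap R K g - 1) (Point.some (algebraMap R K g) 0 hng)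
        (algebraMap R K b0 * t0 / algebraMap R K g)
        (algebraMap R K b * t1 / (1 - algebraMap R K g))
        ((add_self_eq_zero_iff hL' hng).2 rfl) (div_ne_zero nb0 h0) (div_ne_zero nb h1')
        (by simp [d0, h0]) (by simp [d1, h1]) ?_ ?_
      · rw [div_pow, ← ee0]
        field_simp
      · rw [div_pow, ← ee1, he1]
        field_simp
        ring

end Pool.Agent.W309.TD
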