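import Pool.Agent.W309.TD.Gal

/-!
Kummer theory for cocycles with values in the points of order two.
-/

set_option autoImplicit false
set_option linter.all false

open WeierstrassCurve WeierstrassCurve.Affine
open scoped Classical Pointwise

namespace Pool.Agent.W309.TD

universe u

section kummer

variable {K Ω : Type u} [Field K] [Field Ω] [Algebra K Ω] [IsGalois K Ω]

theorem locConst_apply (x : Ω) : IsLocallyConstant (fun σ : Ω ≃ₐ[K] Ω => σ x) := by
  rw [IsLocallyConstant.iff_exists_open]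
  intro σ
  have ho : IsOpen (MulAction.stabilizer (Ω ≃ₐ[K] Ω) x : Set (Ω ≃ₐ[K] Ω)) :=
    stabilizer_isOpen_of_isIntegral x
  refine ⟨σ • (MulAction.stabilizer (Ω ≃ₐ[K] Ω) x : Set (Ω ≃ₐ[K] Ω)), ho.smul σ, ?_, ?_⟩
  · exact ⟨1, (MulAction.stabilizer (Ω ≃ₐ[K] Ω) x).one_mem, mul_one σ⟩
  · rintro τ ⟨ρ, hρ, rfl⟩
    have h1 : ρ x = x := hρ
    show (σ * ρ) x = σ x
    rw [AlgEquiv.mul_apply, h1]

/-- A locally constant quadratic character comes from a square root. -/
theorem exists_root (h2 : (2 : Ω) ≠ 0) (χ : (Ω ≃ₐ[K] Ω) → Ω) (hχ : ∀ σ, χ σ = 1 ∨ χ σ = -1)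
    (hmul : ∀ σ τ, χ (σ * τ) = χ σ * χ τ) (hc : IsLocallyConstant χ) :
    ∃ (s : Ω) (a : K), s ≠ 0 ∧ s ^ 2 = algebraMap K Ω a ∧ ∀ σ, σ s = χ σ * s := by
  have h11 : (1 : Ω) ≠ -1 := by
    intro h'
    exact h2 (by linear_combination h')
  have hfix : ∀ s : Ω, (∀ σ, σ s = χ σ * s) → ∃ a : K, s ^ 2 = algebraMap K Ω a := by
    intro s hs
    have : s ^ 2 ∈ Set.range (algebraMap K Ω) := by
      rw [InfiniteGalois.mem_range_algebraMap_iff_fixed]
      intro σ
      rw [map_pow, hs, mul_pow]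
      rcases hχ σ with h | h <;> rw [h] <;> ring
    obtain ⟨a, ha⟩ := this
    exact ⟨a, ha.symm⟩
  have hone : χ 1 = 1 := by
    have := hmul 1 1
    rw [mul_one] at this
    rcases hχ 1 with h | h
    · exact h
    · rw [h] at this
      exact absurd (by linear_combination -this) h11
  by_cases htriv : ∀ σ, χ σ = 1
  · obtain ⟨a, ha⟩ := hfix 1 (fun σ => by rw [htriv σ, map_one, mul_one])
    exact ⟨1, a, one_ne_zero, ha, fun σ => by rw [htriv σ, map_one, mul_one]⟩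
  · push Not at htriv
    obtain ⟨τ, hτ⟩ := htriv
    have hτ' : χ τ = -1 := (hχ τ).resolve_left hτ
    let H : Subgroup (Ω ≃ₐ[K] Ω) :=
      { carrier := {σ | χ σ = 1}
        mul_mem' := by
          intro a b ha hb
          show χ (a * b) = 1
          rw [hmul, show χ a = 1 from ha, show χ b = 1 from hb, mul_one]
        one_mem' := hone
        inv_mem' := by
          intro a ha
          show χ a⁻¹ = 1
          have := hmul a⁻¹ a
          rw [inv_mul_cancel, hone, show χ a = 1 from ha, mul_one] at this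
          exact this.symm }
    have hHo : IsOpen (H : Set (Ω ≃ₐ[K] Ω)) := hc.isOpen_fiber 1
    let Hc : ClosedSubgroup (Ω ≃ₐ[K] Ω) := ⟨H, H.isClosed_of_isOpen hHo⟩
    have hfx := InfiniteGalois.fixingSubgroup_fixedField Hc
    have hτn : τ ∉ (IntermediateField.fixedField (Hc : Subgroup (Ω ≃ₐ[K] Ω))).fixingSubgroup := by
      rw [hfx]
      intro h
      exact hτ h
    rw [IntermediateField.mem_fixingSubgroup_iff] at hτn
    push Not at hτn
    obtain ⟨x, hx, hx'⟩ := hτn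
    have hxH : ∀ σ, χ σ = 1 → σ x = x := by
      intro σ hσ
      exact hx ⟨σ, hσ⟩
    refine ⟨x - τ x, ?_⟩
    have hs : ∀ σ, σ (x - τ x) = χ σ * (x - τ x) := by
      intro σ
      rw [map_sub]
      rcases hχ σ with h | h
      · have e1 : σ x = x := hxH σ h
        have e2 : σ (τ x) = τ x := by
          have h3 : χ (τ⁻¹ * σ * τ) = 1 := by
            rw [hmul, hmul, h, mul_one, ← hmul, inv_mul_cancel, hone]
          have h4 := hxH _ h3
          rw [AlgEquiv.mul_apply, AlgEquiv.mul_apply] at h4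
          have h5 := congrArg τ h4
          rw [← AlgEquiv.mul_apply τ τ⁻¹, mul_inv_cancel, AlgEquiv.one_apply] at h5
          exact h5
        rw [e1, e2, h, one_mul]
      · have e1 : σ x = τ x := by
          have h3 : χ (τ⁻¹ * σ) = 1 := by
            have h6 : χ τ⁻¹ = -1 := by
              have := hmul τ⁻¹ τ
              rw [inv_mul_cancel, hone, hτ'] at this
              linear_combination this
            rw [hmul, h, h6]; ring
          have h4 := hxH _ h3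
          rw [AlgEquiv.mul_apply] at h4
          have h5 := congrArg τ h4
          rw [← AlgEquiv.mul_apply τ τ⁻¹, mul_inv_cancel, AlgEquiv.one_apply] at h5
          exact h5
        have e2 : σ (τ x) = x := by
          have h3 : χ (σ * τ) = 1 := by
            rw [hmul, h, hτ']; ring
          have h4 := hxH _ h3
          rwa [AlgEquiv.mul_apply] at h4
        rw [e1, e2, h]; ring
    obtain ⟨a, ha⟩ := hfix _ hs
    exact ⟨a, sub_ne_zero.2 (Ne.symm hx'), ha, hs⟩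

theorem compare {t u : Ω} (ht : t ≠ 0) (hu : u ≠ 0) (ε : (Ω ≃ₐ[K] Ω) → Ω)
    (hε : ∀ σ, ε σ ≠ 0) (h1 : ∀ σ, σ t = ε σ * t) (h2 : ∀ σ, σ u = ε σ * u) :
    ∃ c : K, c ≠ 0 ∧ t = algebraMap K Ω c * u := by
  have : t / u ∈ Set.range (algebraMap K Ω) := by
    rw [InfiniteGalois.mem_range_algebraMap_iff_fixed]
    intro σ
    rw [map_div₀, h1, h2, mul_div_mul_left _ _ (hε σ)]
  obtain ⟨c, hc⟩ := this
  refine ⟨c, ?_, by rw [hc, div_mul_cancel₀ _ hu]⟩
  rintro rfl
  rw [map_zero] at hc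
  exact div_ne_zero ht hu hc.symm

end kummer

section cocycle

variable {K Ω : Type u} [Field K] [Field Ω] [Algebra K Ω] [IsGalois K Ω] (W : WeierstrassCurve K)
  {g : K}

/-- An automorphism as an algebra homomorphism. -/
noncomputable def au (σ : Ω ≃ₐ[K] Ω) : Ω →ₐ[K] Ω := σ.toAlgHom

theorem au_apply (σ : Ω ≃ₐ[K] Ω) (x : Ω) : au σ x = σ x := rfl

theorem au_mul (σ τ : Ω ≃ₐ[K] Ω) : au (σ * τ) = (au σ).comp (au τ) := rfl

/-- Continuous cocycles. -/
structure IsCoc (f : (Ω ≃ₐ[K] Ω) → Pt W Ω) : Prop where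
  lc : IsLocallyConstant f
  mul : ∀ σ τ, f (σ * τ) = f σ + act W (au σ) (f τ)

/-- Coboundaries. -/
def IsCob (f : (Ω ≃ₐ[K] Ω) → Pt W Ω) : Prop := ∃ Q : Pt W Ω, ∀ σ, f σ = act W (au σ) Q - Q

theorem act_locConst (P : Pt W Ω) :
    IsLocallyConstant (fun σ : Ω ≃ₐ[K] Ω => act W (au σ) P) := by
  rw [IsLocallyConstant.iff_exists_open]
  intro σ
  rcases P with _ | ⟨x, y, hxy⟩
  · exact ⟨Set.univ, isOpen_univ, trivial, fun τ _ => by rw [act_zero, act_zero]⟩
  · obtain ⟨U, hU, hσU, hUx⟩ := (IsLocallyConstant.iff_exists_open _).1 (locConst_apply x) σ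
    obtain ⟨V, hV, hσV, hVy⟩ := (IsLocallyConstant.iff_exists_open _).1 (locConst_apply y) σ
    refine ⟨U ∩ V, hU.inter hV, ⟨hσU, hσV⟩, fun τ hτ => ?_⟩
    obtain ⟨h, hh⟩ := act_some W (au τ) hxy
    obtain ⟨h', hh'⟩ := act_some W (au σ) hxy
    have e1 : (au τ) x = (au σ) x := hUx τ hτ.1
    have e2 : (au τ) y = (au σ) y := hVy τ hτ.2
    rw [hh, hh']
    simp only [e1, e2]

theorem cob_isCoc (Q : Pt W Ω) : IsCoc W (fun σ => act W (au σ) Q - Q) := by
  refine ⟨?_, fun σ τ => ?_⟩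
  · exact (act_locConst W Q).comp (fun P => P - Q)
  · show act W (au (σ * τ)) Q - Q = act W (au σ) Q - Q + act W (au σ) (act W (au τ) Q - Q)
    rw [map_sub, act_act, au_mul]
    abel

theorem IsCoc.sub {f f' : (Ω ≃ₐ[K] Ω) → Pt W Ω} (h : IsCoc W f) (h' : IsCoc W f') :
    IsCoc W (fun σ => f σ - f' σ) := by
  refine ⟨?_, fun σ τ => ?_⟩
  · exact h.lc.comp₂ h'.lc (fun a b => a - b)
  · show f (σ * τ) - f' (σ * τ) = f σ - f' σ + act W (au σ) (f τ - f' τ)
    rw [h.mul, h'.mul, map_sub]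
    abel

theorem IsCoc.nsmul {f : (Ω ≃ₐ[K] Ω) → Pt W Ω} (h : IsCoc W f) (n : ℕ) :
    IsCoc W (fun σ => n • f σ) := by
  refine ⟨?_, fun σ τ => ?_⟩
  · exact h.lc.comp (fun a => n • a)
  · show n • f (σ * τ) = n • f σ + act W (au σ) (n • f τ)
    rw [h.mul, map_nsmul, nsmul_add]

variable (hL : IsLeg (W.baseChange Ω).toAffine (algebraMap K Ω g))

include hL

omit [IsGalois K Ω] in
/-- The points of order two are rational. -/
theorem act_tor (φ : Ω →ₐ[K] Ω) {T : Pt W Ω} (hT : T + T = 0) : act W φ T = T := by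
  apply tor_ext hL ((two_act W φ T).2 hT) hT
  · rw [s0_act]
    rcases s0_sq T with h | h <;> rw [h] <;> simp
  · rw [s1_act]
    rcases s1_sq T with h | h <;> rw [h] <;> simp

theorem s_add [IsSepClosed Ω] {S T : Pt W Ω} (hS : S + S = 0) (hT : T + T = 0) :
    s0 (S + T) = s0 S * s0 T ∧ s1 (S + T) = s1 S * s1 T := by
  have hγ := hL
  have hn : (W.baseChange Ω).toAffine.Nonsingular 0 0 := hL.nonsingular.2 (by ring)
  obtain ⟨P, hP⟩ := halve_sep hL (Point.some 0 0 hn)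
  have hP0 : P + P ≠ 0 := by rw [hP]; exact Point.some_ne_zero _
  have hPS : (P + S) + (P + S) = P + P := by rw [add_add_add_comm, hS, add_zero]
  have hST : (S + T) + (S + T) = 0 := by rw [add_add_add_comm, hS, hT, add_zero]
  obtain ⟨a0, a1⟩ := h_translate hL (P := P) hS (fun h => absurd h hP0)
  obtain ⟨b0, b1⟩ := h_translate hL (P := P + S) hT (fun h => absurd (hPS.symm.trans h) hP0)
  obtain ⟨c0, c1⟩ := h_translate hL (P := P) hST (fun h => absurd h hP0)
  have n0 := h0_ne hL P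
  have n1 := h1_ne hL P
  rw [add_assoc, a0, c0] at b0
  rw [add_assoc, a1, c1] at b1
  constructor
  · apply mul_right_cancel₀ n0
    rw [b0]; ring
  · apply mul_right_cancel₀ n1
    rw [b1]; ring

/-- Square roots attached to a cocycle with values in the points of order two. -/
theorem kummer_rep [IsSepClosed Ω] {f : (Ω ≃ₐ[K] Ω) → Pt W Ω} (hf : IsCoc W f)
    (hf2 : ∀ σ, f σ + f σ = 0) :
    ∃ (t0 t1 : Ω) (a0 a1 : K), t0 ≠ 0 ∧ t1 ≠ 0 ∧ t0 ^ 2 = algebraMap K Ω a0 ∧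
      t1 ^ 2 = algebraMap K Ω a1 ∧ (∀ σ, σ t0 = s0 (f σ) * t0) ∧ ∀ σ, σ t1 = s1 (f σ) * t1 := by
  have hadd : ∀ σ τ, f (σ * τ) = f σ + f τ := fun σ τ => by
    rw [hf.mul, act_tor W hL _ (hf2 τ)]
  obtain ⟨t0, a0, h1, h2, h3⟩ := exists_root (K := K) hL.two (fun σ => s0 (f σ))
    (fun σ => s0_sq _) (fun σ τ => by
      show s0 (f (σ * τ)) = s0 (f σ) * s0 (f τ)
      rw [hadd, (s_add W hL (hf2 σ) (hf2 τ)).1]) (hf.lc.comp s0)
  obtain ⟨t1, a1, k1, k2, k3⟩ := exists_root (K := K) hL.two (fun σ => s1 (f σ))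
    (fun σ => s1_sq _) (fun σ τ => by
      show s1 (f (σ * τ)) = s1 (f σ) * s1 (f τ)
      rw [hadd, (s_add W hL (hf2 σ) (hf2 τ)).2]) (hf.lc.comp s1)
  exact ⟨t0, t1, a0, a1, h1, k1, h2, k2, h3, k3⟩

/-- If the square roots are those of a point `Q` over `K`, the cocycle is the coboundary of a half
of `Q`. -/
theorem cob_of_rep {f : (Ω ≃ₐ[K] Ω) → Pt W Ω}
    (hf2 : ∀ σ, f σ + f σ = 0) {t0 t1 : Ω} (n0 : t0 ≠ 0) (n1 : t1 ≠ 0)
    (k0 : ∀ σ, σ t0 = s0 (f σ) * t0) (k1 : ∀ σ, σ t1 = s1 (f σ) * t1)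
    {H : Pt W Ω} (hH : ∀ σ : Ω ≃ₐ[K] Ω, act W (au σ) (H + H) = H + H) {c0 c1 : K}
    (e0 : t0 ^ 2 = algebraMap K Ω c0 ^ 2 * d0 (algebraMap K Ω g) (H + H))
    (e1 : t1 ^ 2 = algebraMap K Ω c1 ^ 2 * d1 (algebraMap K Ω g) (H + H)) (σ : Ω ≃ₐ[K] Ω) :
    f σ = act W (au σ) H - H := by
  set T := act W (au σ) H - H with hT
  have hTT : T + T = 0 := by
    have := hH σ
    rw [map_add] at this
    rw [hT, sub_add_sub_comm, this, sub_self]
  have hTH : act W (au σ) H = H + T := by rw [hT]; abel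
  have hPT : H + H = 0 → T = 0 := by
    intro h
    rw [hT, act_tor W hL _ h, sub_self]
  obtain ⟨a0, a1⟩ := h_translate hL (P := H) hTT hPT
  rw [← hTH] at a0 a1
  have g1 : au σ (algebraMap K Ω g) = algebraMap K Ω g := σ.commutes g
  have m0 := h0_act W (au σ) (algebraMap K Ω g) H
  have m1 := h1_act W (au σ) (algebraMap K Ω g) H
  rw [g1, a0, au_apply] at m0
  rw [g1, a1, au_apply] at m1
  rw [← h0_sq hL] at e0
  rw [← h1_sq hL] at e1
  apply tor_ext hL (hf2 σ) hTT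
  · rw [← mul_pow] at e0
    have n := h0_ne hL H
    have key : σ t0 = s0 T * t0 := by
      rcases sq_eq_sq_iff_eq_or_eq_neg.1 e0 with h | h
      · rw [h, map_mul, σ.commutes, ← m0]; ring
      · rw [h, map_neg, map_mul, σ.commutes, ← m0]; ring
    rw [k0] at key
    exact mul_right_cancel₀ n0 key
  · rw [← mul_pow] at e1
    have n := h1_ne hL H
    have key : σ t1 = s1 T * t1 := by
      rcases sq_eq_sq_iff_eq_or_eq_neg.1 e1 with h | h
      · rw [h, map_mul, σ.commutes, ← m1]; ring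
      · rw [h, map_neg, map_mul, σ.commutes, ← m1]; ring
    rw [k1] at key
    exact mul_right_cancel₀ n1 key

end cocycle

end Pool.Agent.W309.TD
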