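import Pool.Agent.W309.TD.Gal

/-!
Local analysis of the points of `y ^ 2 = x (x - 1) (x - γ)` over a valued field.
-/

set_option autoImplicit false
set_option linter.all false

open WeierstrassCurve WeierstrassCurve.Affine
open scoped Classical

namespace Pool.Agent.W309.TD

variable {F : Type*} [Field F] {Γ : Type*} [LinearOrderedCommGroupWithZero Γ] (v : Valuation F Γ)

/-- `a` is a square up to a factor close to one. -/
def Sq (a : F) : Prop := ∃ c : F, v (a - c ^ 2) < v a

variable {v}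

theorem Sq.ne {a : F} (h : Sq v a) : a ≠ 0 := by
  rintro rfl
  obtain ⟨c, hc⟩ := h
  rw [map_zero] at hc
  exact not_lt_zero' hc

theorem Sq.val {a : F} (h : Sq v a) : ∃ c : F, v (a - c ^ 2) < v a ∧ v c * v c = v a := by
  obtain ⟨c, hc⟩ := h
  refine ⟨c, hc, ?_⟩
  have : v (c ^ 2) = v a := by
    have h2 : v (c ^ 2 - a) < v a := by rwa [v.map_sub_swap]
    exact v.map_eq_of_sub_lt h2
  rw [← this, map_pow, pow_two]

theorem Sq.even {a : F} (h : Sq v a) : IsSquare (v a) := by
  obtain ⟨c, -, hc⟩ := h.val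
  exact ⟨v c, hc.symm⟩

theorem Sq.mul {a b : F} (ha : Sq v a) (hb : Sq v b) : Sq v (a * b) := by
  obtain ⟨c, hc, hc'⟩ := ha.val
  obtain ⟨d, hd, hd'⟩ := hb.val
  refine ⟨c * d, ?_⟩
  have e : a * b - (c * d) ^ 2 = a * (b - d ^ 2) + d ^ 2 * (a - c ^ 2) := by ring
  have ha0 : 0 < v a := lt_of_le_of_lt zero_le' hc
  have hb0 : 0 < v b := lt_of_le_of_lt zero_le' hd
  rw [e, map_mul]
  apply v.map_add_lt
  · rw [map_mul]
    exact mul_lt_mul_of_pos_left hd ha0
  · rw [map_mul, map_pow, pow_two, hd', mul_comm]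
    exact mul_lt_mul_of_pos_right hc hb0

theorem Sq.sq {c : F} (hc : c ≠ 0) : Sq v (c ^ 2) :=
  ⟨c, by rw [sub_self, map_zero]; exact lt_of_le_of_ne zero_le' ((v.ne_zero_iff.2 (pow_ne_zero 2 hc)).symm)⟩

theorem Sq.of_near {a c u : F} (ha : a ≠ 0) (h : a * u = c ^ 2) (hu : v (u - 1) < 1) : Sq v a := by
  refine ⟨c, ?_⟩
  have : a - c ^ 2 = a * (1 - u) := by rw [← h]; ring
  rw [this, map_mul, v.map_sub_swap]
  have ha0 : 0 < v a := lt_of_le_of_ne zero_le' ((v.ne_zero_iff.2 ha).symm)
  calc v a * v (u - 1) < v a * 1 := mul_lt_mul_of_pos_left hu ha0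
    _ = v a := mul_one _

theorem val_one_add {u : F} (hu : v (u - 1) < 1) : v u = 1 := by
  have : v u = v (1 : F) := v.map_eq_of_sub_lt (by rwa [map_one])
  rw [this, map_one]

theorem Sq.of_one {a : F} (h : v (a - 1) < 1) : Sq v a :=
  ⟨1, by rw [one_pow, val_one_add h]; exact h⟩

theorem Sq.cancel {a c : F} (hc : c ≠ 0) (h : Sq v (c ^ 2 * a)) : Sq v a := by
  have := (Sq.sq (v := v) (inv_ne_zero hc)).mul h
  rwa [← mul_assoc, ← mul_pow, inv_mul_cancel₀ hc, one_pow, one_mul] at this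

/-- product of `1 + small`. -/
theorem near_mul {u w : F} (hu : v (u - 1) < 1) (hw : v (w - 1) < 1) : v (u * w - 1) < 1 := by
  have e : u * w - 1 = (u - 1) * w + (w - 1) := by ring
  rw [e]
  apply v.map_add_lt
  · rw [map_mul, val_one_add hw, mul_one]; exact hu
  · exact hw

section points

variable {W : Affine F} {γ : F} (h : IsLeg W γ)

include h

/-- good reduction. -/
theorem local_good (h0 : v γ = 1) (h1 : v (γ - 1) = 1) (Q : W.Point) :
    IsSquare (v (d0 γ Q)) ∧ IsSquare (v (d1 γ Q)) := by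
  rcases Q with _ | ⟨x, y, hxy⟩
  · simp [d0, d1]
  have he := h.nonsingular.1 hxy
  have hve : v y * v y = v x * v (x - 1) * v (x - γ) := by
    rw [← map_mul, ← map_mul, ← map_mul, ← he, pow_two]
  have hm1 : v (-1 : F) = 1 := by rw [v.map_neg, map_one]
  have h1' : v (1 - γ) = 1 := by rw [v.map_sub_swap]; exact h1
  simp only [d0, d1]
  by_cases x0 : x = 0
  · subst x0
    rw [if_pos rfl, if_neg (by exact zero_ne_one), h0, zero_sub, hm1]
    exact ⟨⟨1, (mul_one 1).symm⟩, ⟨1, (mul_one 1).symm⟩⟩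
  by_cases x1 : x = 1
  · subst x1
    rw [if_pos rfl, if_neg one_ne_zero, map_one, h1']
    exact ⟨⟨1, (mul_one 1).symm⟩, ⟨1, (mul_one 1).symm⟩⟩
  rw [if_neg x0, if_neg x1]
  rcases lt_trichotomy (v x) 1 with hx | hx | hx
  · have e1 : v (x - 1) = 1 := by
      rw [v.map_sub_swap]
      have := v.map_one_sub_of_lt hx
      exact this
    have e2 : v (x - γ) = 1 := by
      rw [v.map_sub_swap, v.map_sub_eq_of_lt_left (by rw [h0]; exact hx), h0]
    rw [e1, e2, mul_one, mul_one] at hve
    exact ⟨⟨v y, hve.symm⟩, by rw [e1]; exact ⟨1, (mul_one 1).symm⟩⟩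
  · refine ⟨by rw [hx]; exact ⟨1, (mul_one 1).symm⟩, ?_⟩
    have hle : v (x - 1) ≤ 1 := by
      refine (v.map_sub _ _).trans ?_
      rw [hx, map_one, max_self]
    rcases hle.eq_or_lt with e1 | e1
    · rw [e1]; exact ⟨1, (mul_one 1).symm⟩
    · have e2 : v (x - γ) = 1 := by
        have : x - γ = (x - 1) - (γ - 1) := by ring
        rw [this, v.map_sub_swap, v.map_sub_eq_of_lt_left (by rw [h1]; exact e1), h1]
      rw [hx, e2, one_mul, mul_one] at hve
      exact ⟨v y, hve.symm⟩
  · have e1 : v (x - 1) = v x := v.map_sub_eq_of_lt_left (by rw [map_one]; exact hx)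
    have e2 : v (x - γ) = v x := v.map_sub_eq_of_lt_left (by rw [h0]; exact hx)
    have hx0 : v x ≠ 0 := v.ne_zero_iff.2 x0
    have key : IsSquare (v x) := by
      refine ⟨v y / v x, ?_⟩
      rw [e1, e2] at hve
      rw [div_mul_div_comm, hve, mul_assoc (v x), mul_div_assoc, div_self (mul_ne_zero hx0 hx0),
        mul_one]
    exact ⟨key, by rw [e1]; exact key⟩

/-- the place of `γ - 1`. -/
theorem local_one (h1 : v (γ - 1) < 1) (Q : W.Point) : Sq v (d0 γ Q) := by
  have hγ : v γ = 1 := val_one_add h1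
  rcases Q with _ | ⟨x, y, hxy⟩
  · exact Sq.of_one (by simp [d0])
  have he := h.nonsingular.1 hxy
  simp only [d0]
  by_cases x0 : x = 0
  · rw [if_pos x0]
    exact Sq.of_one h1
  rw [if_neg x0]
  rcases lt_trichotomy (v x) 1 with hx | hx | hx
  · apply Sq.of_near x0 (u := (x - 1) * (x - γ)) (c := y) (by rw [he]; ring)
    have e : (x - 1) * (x - γ) - 1 = x * (x - 1 - γ) + (γ - 1) := by ring
    rw [e]
    apply v.map_add_lt _ h1
    rw [map_mul]
    have : v (x - 1 - γ) ≤ 1 := by
      refine (v.map_sub _ _).trans (max_le ((v.map_sub _ _).trans (max_le hx.le ?_)) hγ.le)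
      rw [map_one]
    calc v x * v (x - 1 - γ) ≤ v x * 1 := mul_le_mul_right this _
      _ < 1 := by rw [mul_one]; exact hx
  · have hle : v (x - 1) ≤ 1 := by
      refine (v.map_sub _ _).trans ?_
      rw [hx, map_one, max_self]
    rcases hle.eq_or_lt with e1 | e1
    · have x1 : x - 1 ≠ 0 := by
        rw [← v.ne_zero_iff, e1]; exact one_ne_zero
      apply Sq.of_near x0 (u := (x - γ) / (x - 1)) (c := y / (x - 1))
      · field_simp
        rw [he]
        ring
      · have e : (x - γ) / (x - 1) - 1 = -(γ - 1) / (x - 1) := by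
          field_simp; ring
        rw [e, map_div₀, e1, div_one, v.map_neg]
        exact h1
    · exact Sq.of_one e1
  · apply Sq.of_near x0 (u := (1 - 1 / x) * (1 - γ / x)) (c := y / x)
    · field_simp
      rw [he]
    · have hx0 : v x ≠ 0 := v.ne_zero_iff.2 x0
      apply near_mul
      · have : (1 - 1 / x) - 1 = - (1 / x) := by ring
        rw [this, v.map_neg, map_div₀, map_one]
        exact (div_lt_one₀ (zero_lt_iff.2 hx0)).2 hx
      · have : (1 - γ / x) - 1 = - (γ / x) := by ring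
        rw [this, v.map_neg, map_div₀, hγ]
        exact (div_lt_one₀ (zero_lt_iff.2 hx0)).2 hx

/-- general facts at a place dividing `γ`. -/
theorem local_zero (h0 : v γ < 1) (Q : W.Point) :
    (Sq v (d1 γ Q) ∧ IsSquare (v (d0 γ Q))) ∨
    (Sq v (-d1 γ Q) ∧ (Sq v (d1 γ Q) ∨ IsSquare (v (d0 γ Q) * v γ) )) := by
  have h1γ : v ((1 - γ) - 1) < 1 := by
    have : (1 - γ) - 1 = -γ := by ring
    rw [this, v.map_neg]; exact h0
  rcases Q with _ | ⟨x, y, hxy⟩
  · left
    exact ⟨Sq.of_one (by simp [d1]), by simp [d0]⟩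
  have he := h.nonsingular.1 hxy
  simp only [d0, d1]
  by_cases x0 : x = 0
  · subst x0
    right
    rw [if_pos rfl, if_neg (by exact zero_ne_one)]
    exact ⟨Sq.of_one (by simp), Or.inr ⟨v γ, rfl⟩⟩
  by_cases x1 : x = 1
  · subst x1
    left
    rw [if_pos rfl, if_neg one_ne_zero]
    exact ⟨Sq.of_one h1γ, by simp⟩
  rw [if_neg x0, if_neg x1]
  have x1' : x - 1 ≠ 0 := sub_ne_zero.2 x1
  have hx0 : v x ≠ 0 := v.ne_zero_iff.2 x0
  have key : v γ < v x → Sq v (x - 1) := by
    intro hlt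
    apply Sq.of_near x1' (u := 1 - γ / x) (c := y / x)
    · field_simp
      rw [he]
    · have : (1 - γ / x) - 1 = - (γ / x) := by ring
      rw [this, v.map_neg, map_div₀]
      exact (div_lt_one₀ (zero_lt_iff.2 hx0)).2 hlt
  rcases lt_trichotomy (v x) 1 with hx | hx | hx
  · right
    refine ⟨Sq.of_one ?_, ?_⟩
    · have : -(x - 1) - 1 = -x := by ring
      rw [this, v.map_neg]; exact hx
    · have hve : v y * v y = v x * v (x - 1) * v (x - γ) := by
        rw [← map_mul, ← map_mul, ← map_mul, ← he, pow_two]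
      have e1 : v (x - 1) = 1 := by
        rw [v.map_sub_swap]
        exact v.map_one_sub_of_lt hx
      rcases lt_trichotomy (v γ) (v x) with hlt | heq | hgt
      · exact Or.inl (key hlt)
      · right; rw [heq]; exact ⟨v x, rfl⟩
      · right
        have e2 : v (x - γ) = v γ := by
          rw [v.map_sub_swap]
          exact v.map_sub_eq_of_lt_left hgt
        rw [e1, e2, mul_one] at hve
        exact ⟨v y, hve.symm⟩
  · left
    exact ⟨key (by rw [hx]; exact h0), by rw [hx]; exact ⟨1, (mul_one 1).symm⟩⟩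
  · left
    have k := key (h0.trans hx)
    refine ⟨k, ?_⟩
    have e1 : v (x - 1) = v x := v.map_sub_eq_of_lt_left (by rw [map_one]; exact hx)
    rw [← e1]
    exact k.even

end points

end Pool.Agent.W309.TD
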